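import Pool.Agent.MP_ef387b_co.Stable

/-!
Setting the torus variables `r, …, t - 1` equal to `1` one after the other.
-/

namespace Pool.Agent.MP_ef387b_co

open MvPolynomial

variable {N : ℕ}

/-- Index weights after the pivots `r, …, t - 1`. -/
noncomputable def uC (N r t : ℕ) (i : Fin N) : Fin N →₀ ℕ :=
  if r ≤ i.1 ∧ i.1 < t then 0 else Finsupp.single i 1

/-- The slice of `MX z` after the pivots `r, …, t - 1`. -/
def SC (z : Equiv.Perm (Fin N)) (r t : ℕ) : Set (Matrix (Fin N) (Fin N) ℂ) :=
  {A | A ∈ MX z ∧ ∀ a b : Fin N, r ≤ a.1 → a.1 < t → r ≤ b.1 → A a b = if a = b then 1 else 0}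

/-- The denominator after the pivots `r, …, t - 1`. -/
noncomputable def DC (N r t : ℕ) : MvPolynomial (Fin N) ℤ :=
  ∏ a ∈ Finset.univ.filter (fun a : Fin N => ¬ (r ≤ a.1 ∧ a.1 < t)), ∏ b ∈ Finset.Ici a,
    (1 - monomial (uC N r t a + uC N r t b) 1)

/-- Setting the variables `r, …, t - 1` equal to `1`. -/
noncomputable def spC (N r t : ℕ) : MvPolynomial (Fin N) ℤ →ₐ[ℤ] MvPolynomial (Fin N) ℤ :=
  aeval fun i => if r ≤ i.1 ∧ i.1 < t then 1 else X i

theorem chain (z : Equiv.Perm (Fin N)) (r : ℕ) : ∀ t, r ≤ t → t ≤ N →
    ((spC N r t (Kz z) : MvPolynomial (Fin N) ℤ) : MvPowerSeries (Fin N) ℤ) =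
      HM (uC N r t) (SC z r t) * (DC N r t : MvPolynomial (Fin N) ℤ) := by
  intro t hrt
  induction t, hrt using Nat.le_induction with
  | base =>
    intro _
    have hn : ∀ i : Fin N, ¬ (r ≤ i.1 ∧ i.1 < r) := fun i h => by omega
    have h1 : uC N r r = u0 N := funext fun i => if_neg (hn i)
    have h2 : SC z r r = MX z := by
      ext A
      exact ⟨fun h => h.1, fun h => ⟨h, fun a _ h1 h2 => absurd ⟨h1, h2⟩ (hn a)⟩⟩
    have h3 : DC N r r = DP (u0 N) := by
      rw [DC, DP, h1, Finset.filter_true_of_mem fun i _ => hn i]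
    have h4 : spC N r r = AlgHom.id ℤ _ := by
      ext i
      simp [spC, hn i]
    rw [h1, h2, h3, h4]
    exact isKu_Kz z
  | succ t hrt ih =>
    intro htN
    have ih := ih (by omega)
    let p : Fin N := ⟨t, by omega⟩
    let u := uC N r t
    have hup : u p = Finsupp.single p 1 := if_neg (by simp [p])
    have hu' : Function.update u p 0 = uC N r (t + 1) := by
      funext i
      by_cases hi : i = p
      · subst hi
        rw [Function.update_self, uC, if_pos (by simp [p, hrt])]
      · have : i.1 ≠ t := fun h => hi (Fin.ext h)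
        rw [Function.update_of_ne hi]
        exact if_congr (by omega) rfl rfl
    have hu : ∀ i, i ≠ p → u i p = 0 := by
      intro i hi
      simp only [u, uC]
      split_ifs
      · rfl
      · exact Finsupp.single_eq_of_ne' hi
    have hue : ∀ i, (u i).erase p = uC N r (t + 1) i := by
      intro i
      rw [← hu']
      by_cases hi : i = p
      · subst hi; simp [hup]
      · rw [Function.update_of_ne hi, Finsupp.erase_of_notMem_support (by simpa using hu i hi)]
    have hJ : ∀ j ∈ Finset.Ioi p, u j = Finsupp.single j 1 := by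
      intro j hj
      have : t < j.1 := Fin.lt_def.mp (Finset.mem_Ioi.mp hj)
      exact if_neg (by omega)
    have hJ' : ∀ j ∈ Finset.Ioi p, uC N r (t + 1) j = u j := by
      intro j hj
      rw [← hu', Function.update_of_ne (Finset.mem_Ioi.mp hj).ne']
    let D : MvPolynomial (Fin N) ℤ := (∏ j ∈ Finset.Ioi p, (1 - monomial (u p + u j) 1)) *
      ∏ a ∈ Finset.univ.filter (fun a : Fin N => ¬ (r ≤ a.1 ∧ a.1 < t + 1)), ∏ b ∈ Finset.Ici a,
        (1 - monomial (u a + u b) 1)
    have hD : DC N r t = (1 - monomial (Finsupp.single p 2) 1) * D := by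
      have h1 : Finset.univ.filter (fun a : Fin N => ¬ (r ≤ a.1 ∧ a.1 < t)) =
          insert p (Finset.univ.filter (fun a : Fin N => ¬ (r ≤ a.1 ∧ a.1 < t + 1))) := by
        ext a
        simp only [Finset.mem_filter, Finset.mem_univ, true_and, Finset.mem_insert, Fin.ext_iff, p]
        omega
      rw [DC, h1, Finset.prod_insert (by simp [p, hrt]), ← Finset.Ioi_insert,
        Finset.prod_insert (by simp), mul_assoc]
      change (1 - monomial (u p + u p) 1) * _ = _
      rw [hup, ← Finsupp.single_add]
    have hspD : sp p D = (∏ j ∈ Finset.Ioi p, (1 - monomial (u j) 1)) * DC N r (t + 1) := by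
      simp only [D, DC, map_mul, map_prod, map_sub, map_one, sp_monomial, Finsupp.erase_add, hue]
      congr 1
      refine Finset.prod_congr rfl fun j hj => ?_
      rw [hJ' j hj, ← hu', Function.update_self, zero_add]
    have hzero : ∀ a, uC N r (t + 1) a = 0 → r ≤ a.1 ∧ a.1 < t + 1 := by
      intro a ha
      by_contra h
      rw [uC, if_neg h] at ha
      simp at ha
    have hpiv := pivot u (SC z r t) p p (Finset.Ioi p) hup hu (by simp)
      (fun j hj => by rw [hJ j hj]; simp) (by
        intro c _ A hA
        refine ⟨scale_mem_MX hA.1 p c, fun a b h1 h2 h3 => ?_⟩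
        have hap : a ≠ p := fun h => by rw [h] at h2; simp [p] at h2
        simp only [scale, Matrix.of_apply, if_neg hap, hA.2 a b h1 h2 h3]
        by_cases hb : b = p
        · simp [hb, hap]
        · simp [hb]) (by
        intro y hy A hA
        refine ⟨cong_mem_MX hA.1 p y fun a ha => ?_, fun a b h1 h2 h3 => ?_⟩
        · by_contra h
          exact ha (hy a (by simpa using (not_le.mp h).le))
        · have hap : a ≠ p := fun h => by rw [h] at h2; simp [p] at h2
          have hya : y a = 0 := hy a (by
            rw [Finset.mem_Ioi, not_lt]; exact Fin.le_def.mpr (by simp only [p]; omega))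
          simp [cong, hya, hA.2 a b h1 h2 h3, hA.2 a p h1 h2 hrt, hap]) (by
        intro a b hab h0
        rw [hu', add_eq_zero] at h0
        have ha := hzero a h0.1
        have hb := hzero b h0.2
        by_cases hab' : a = b
        · subst hab'
          have hat : a.1 < t := by
            by_contra h
            exact hab (by rw [show a = p from Fin.ext (by simp only [p]; omega)])
          right
          refine ⟨?_, fun A hA => by simpa using hA.2 a a ha.1 hat ha.1⟩
          have : u a = 0 := if_pos ⟨ha.1, hat⟩
          rw [this, add_zero]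
        · left
          intro A hA
          by_cases hat : a.1 < t
          · simpa [hab'] using hA.2 a b ha.1 hat hb.1
          · have hbt : b.1 < t := by
              by_contra h
              exact hab' (Fin.ext (by omega))
            rw [← hA.1.1.apply a b]
            simpa [Ne.symm hab'] using hA.2 b a hb.1 hbt ha.1)
      (K := spC N r t (Kz z)) (D := D) (by
        rw [ih, hD, coe_mul, coe_one_sub_monomial, mul_assoc])
    have hS : {A | A ∈ SC z r t ∧ A p p = 1 ∧ ∀ j ∈ Finset.Ioi p, A p j = 0} = SC z r (t + 1) := by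
      ext A
      constructor
      · rintro ⟨hA, h1, h2⟩
        refine ⟨hA.1, fun a b ha1 ha2 hb => ?_⟩
        by_cases hat : a.1 < t
        · exact hA.2 a b ha1 hat hb
        · have : a = p := Fin.ext (by simp only [p]; omega)
          subst this
          rcases lt_trichotomy p b with h | h | h
          · rw [h2 b (Finset.mem_Ioi.mpr h), if_neg h.ne]
          · rw [← h, h1, if_pos rfl]
          · rw [← hA.1.1.apply p b, hA.2 b p hb h hrt, if_neg h.ne, if_neg h.ne']
      · intro hA
        refine ⟨⟨hA.1, fun a b h1 h2 h3 => hA.2 a b h1 (by omega) h3⟩, ?_, fun j hj => ?_⟩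
        · simpa using hA.2 p p hrt (by simp [p]) hrt
        · have hj' : p < j := Finset.mem_Ioi.mp hj
          rw [hA.2 p j hrt (by simp [p]) (hrt.trans (Fin.le_def.mp hj'.le)), if_neg hj'.ne]
    have hsp : sp p (spC N r t (Kz z)) = spC N r (t + 1) (Kz z) := by
      have : (sp p).comp (spC N r t) = spC N r (t + 1) := by
        apply MvPolynomial.algHom_ext
        intro i
        by_cases hi : i = p
        · subst hi
          simp [spC, sp, p, hrt]
        · have h1 : i.1 ≠ t := fun h => hi (Fin.ext h)
          by_cases h2 : r ≤ i.1 ∧ i.1 < t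
          · have h3 : r ≤ i.1 ∧ i.1 < t + 1 := by omega
            simp only [spC, AlgHom.comp_apply, aeval_X, if_pos h2, if_pos h3, map_one]
          · have h3 : ¬ (r ≤ i.1 ∧ i.1 < t + 1) := by omega
            simp only [spC, sp, AlgHom.comp_apply, aeval_X, if_neg h2, if_neg h3, if_neg hi]
      exact DFunLike.congr_fun this _
    rw [hS, hu', hsp, hspD, coe_mul, coe_prod'] at hpiv
    simp only [coe_one_sub_monomial] at hpiv
    apply mul_right_cancel₀ (prod_one_sub_ne_zero (Finset.Ioi p) u fun j hj => by
      rw [hJ j hj]; simp)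
    rw [hpiv]
    ring

end Pool.Agent.MP_ef387b_co
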