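import Pool.Agent.MP_ef387b_co.Rank

/-!
The coordinate ring of `MX z`: Hilbert series, homogeneity, existence and uniqueness of the
orthogonal Grothendieck polynomial.
-/

namespace Pool.Agent.MP_ef387b_co

open MvPolynomial

variable {N : ℕ}

theorem mem_idealMX {z : Equiv.Perm (Fin N)} {f : MvPolynomial (Pos N) ℂ} :
    f ∈ idealMX z ↔ ∀ A ∈ MX z, aeval (fun p : Pos N => A p.1.1 p.1.2) f = 0 := by
  simp [idealMX, mem_vanishingIdeal_iff]

theorem aeval_pi_apply {σ Z : Type*} (f : σ → Z → ℂ) (P : MvPolynomial σ ℂ) (x : Z) :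
    aeval f P x = aeval (fun s => f s x) P := by
  induction P using MvPolynomial.induction_on with
  | C a => simp
  | add P Q hP hQ => simp [hP, hQ]
  | mul_X P s hP => simp [hP]

/-- Elements of the coordinate ring as functions. -/
noncomputable def evI (z : Equiv.Perm (Fin N)) :
    (MvPolynomial (Pos N) ℂ ⧸ idealMX z) →ₐ[ℂ] (MX z → ℂ) :=
  Ideal.Quotient.liftₐ (idealMX z) (aeval fun (s : Pos N) (A : MX z) => A.1 s.1.1 s.1.2) (by
    intro f hf
    funext A
    rw [aeval_pi_apply]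
    exact mem_idealMX.mp hf A.1 A.2)

theorem evI_mk (z : Equiv.Perm (Fin N)) (f : MvPolynomial (Pos N) ℂ) (A : MX z) :
    evI z (Ideal.Quotient.mk _ f) A = aeval (fun p : Pos N => A.1 p.1.1 p.1.2) f := by
  rw [← aeval_pi_apply (fun (s : Pos N) (A : MX z) => A.1 s.1.1 s.1.2)]
  rfl

theorem evI_injective (z : Equiv.Perm (Fin N)) : Function.Injective (evI z) := by
  rw [injective_iff_map_eq_zero]
  intro g hg
  obtain ⟨f, rfl⟩ := Ideal.Quotient.mk_surjective g
  rw [Ideal.Quotient.eq_zero_iff_mem, mem_idealMX]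
  intro A hA
  rw [← evI_mk z f ⟨A, hA⟩, hg]
  rfl

theorem hilb_eq (I : Ideal (MvPolynomial (Pos N) ℂ)) :
    hilb I = hs (wt N) (fun s => Ideal.Quotient.mkₐ ℂ I (X s)) := by
  have : aeval (fun t => Ideal.Quotient.mkₐ ℂ I (X t)) = Ideal.Quotient.mkₐ ℂ I := by
    ext t; simp
  funext μ
  unfold hilb pieceDim hs gp
  rw [this]

/-- The standard weights of the indices. -/
noncomputable def u0 (N : ℕ) : Fin N → Fin N →₀ ℕ := fun i => Finsupp.single i 1

theorem hilb_idealMX (z : Equiv.Perm (Fin N)) : hilb (idealMX z) = HM (u0 N) (MX z) := by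
  rw [hilb_eq, ← hs_map_of_injective (evI z) (evI_injective z), HM]
  have h1 : (fun s : Pos N => evI z (Ideal.Quotient.mkₐ ℂ (idealMX z) (X s))) =
      fun (s : Pos N) (A : MX z) => A.1 s.1.1 s.1.2 := by
    funext s A
    exact (evI_mk z (X s) A).trans (by simp)
  rw [h1]
  apply hs_eq_of_gen
  · intro s
    exact gen_mem_gp' _ _ s.1 rfl rfl
  · rintro ⟨a, b⟩
    rcases le_total a b with h | h
    · exact gen_mem_gp' _ _ (⟨(a, b), h⟩ : Pos N) rfl rfl
    · exact gen_mem_gp' _ _ (⟨(b, a), h⟩ : Pos N) (funext fun A => A.2.1.apply b a)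
        (add_comm _ _)

theorem hilb_bot_mul :
    hilb (⊥ : Ideal (MvPolynomial (Pos N) ℂ)) *
      ∏ s : Pos N, (1 - MvPowerSeries.monomial (wt N s) (1 : ℤ)) = 1 := by
  rw [hilb_eq, hs_map_of_injective (Ideal.Quotient.mkₐ ℂ ⊥)]
  · apply hs_X
    intro s h
    have := DFunLike.congr_fun h s.1.1
    simp [wt] at this
  · rw [injective_iff_map_eq_zero]
    intro f hf
    simpa using Ideal.Quotient.eq_zero_iff_mem.mp hf

theorem wt_ne_zero (s : Pos N) : wt N s ≠ 0 := by
  intro h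
  have := DFunLike.congr_fun h s.1.1
  simp [wt] at this

theorem prod_Pos {M : Type*} [CommMonoid M] (F : Fin N → Fin N → M) :
    ∏ s : Pos N, F s.1.1 s.1.2 = ∏ a, ∏ b ∈ Finset.Ici a, F a b := by
  rw [← Finset.prod_subtype (Finset.univ.filter fun p : Fin N × Fin N => p.1 ≤ p.2) (by simp)
    (fun p : Fin N × Fin N => F p.1 p.2), Finset.prod_filter, Fintype.prod_prod_type]
  refine Finset.prod_congr rfl fun a _ => ?_
  rw [← Finset.prod_filter]
  congr 1
  ext b
  simp

/-- The denominator of the Hilbert series of the space of symmetric matrices. -/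
noncomputable def DP {τ : Type*} (u : Fin N → τ →₀ ℕ) : MvPolynomial τ ℤ :=
  ∏ a, ∏ b ∈ Finset.Ici a, (1 - monomial (u a + u b) 1)

/-- `K` is the `K`-polynomial of `S` for the index weights `u`. -/
def IsKu {τ : Type*} (u : Fin N → τ →₀ ℕ) (S : Set (Matrix (Fin N) (Fin N) ℂ))
    (K : MvPolynomial τ ℤ) : Prop :=
  (K : MvPowerSeries τ ℤ) = HM u S * (DP u : MvPolynomial τ ℤ)

theorem coe_DP_u0 : ((DP (u0 N) : MvPolynomial (Fin N) ℤ) : MvPowerSeries (Fin N) ℤ) =
    ∏ s : Pos N, (1 - MvPowerSeries.monomial (wt N s) (1 : ℤ)) := by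
  rw [DP, ← prod_Pos (fun a b => (1 - monomial (u0 N a + u0 N b) 1 : MvPolynomial (Fin N) ℤ)),
    coe_prod']
  exact Finset.prod_congr rfl fun s _ => coe_one_sub_monomial _

theorem isK_iff (z : Equiv.Perm (Fin N)) (K : MvPolynomial (Fin N) ℤ) :
    (K : MvPowerSeries (Fin N) ℤ) * hilb ⊥ = hilb (idealMX z) ↔ IsKu (u0 N) (MX z) K := by
  rw [IsKu, coe_DP_u0, ← hilb_idealMX]
  constructor
  · intro h
    rw [← h, mul_assoc, hilb_bot_mul, mul_one]
  · intro h
    rw [h, mul_assoc, mul_comm _ (hilb ⊥), hilb_bot_mul, mul_one]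

theorem IsKu.unique {τ : Type*} {u : Fin N → τ →₀ ℕ} {S : Set (Matrix (Fin N) (Fin N) ℂ)}
    {K K' : MvPolynomial τ ℤ} (h : IsKu u S K) (h' : IsKu u S K') : K = K' :=
  coe_injective τ ℤ (h.trans h'.symm)

theorem IsKu.rename {τ τ' : Type*} {u : Fin N → τ →₀ ℕ} {S : Set (Matrix (Fin N) (Fin N) ℂ)}
    {K : MvPolynomial τ ℤ} (h : IsKu u S K) (e : τ ↪ τ') :
    IsKu (fun i => (u i).mapDomain e) S (MvPolynomial.rename e K) := by
  have h1 : DP (fun i => (u i).mapDomain e) = MvPolynomial.rename e (DP u) := by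
    simp [DP, map_prod, rename_monomial, Finsupp.mapDomain_add]
  rw [IsKu, h1, ← MvPowerSeries.rename_coe, ← MvPowerSeries.rename_coe, h, map_mul, HM, HM,
    ← hs_rename]
  simp only [Finsupp.mapDomain_add]

theorem homog_of_torus {σ τ : Type*} (w : σ → τ →₀ ℕ) (V : Set (σ → ℂ))
    (hV : ∀ t : τ → ℂ, ∀ x ∈ V, (fun s => ((w s).prod fun i k => t i ^ k) * x s) ∈ V) :
    Homog w (vanishingIdeal ℂ V) := by
  classical
  intro P hP ν x hx
  let Q : MvPolynomial σ ℂ →ₐ[ℂ] MvPolynomial τ ℂ := aeval fun s => monomial (w s) (x s)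
  have hQm : ∀ α : σ →₀ ℕ, Q (monomial α 1) =
      monomial (Finsupp.weight w α) (aeval x (monomial α (1 : ℂ))) := by
    intro α
    induction α using Finsupp.induction_linear with
    | zero => simp
    | add a b ha hb =>
      rw [← one_mul (1 : ℂ), ← monomial_mul, map_mul, ha, hb, monomial_mul, map_add,
        map_mul (aeval x)]
    | single s k =>
      rw [← X_pow_eq_monomial, map_pow, map_pow, Finsupp.weight_single]
      simp [Q, monomial_pow]
  have h1 : ∀ P : MvPolynomial σ ℂ,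
      coeff ν (Q P) = aeval x (weightedHomogeneousComponent w ν P) := by
    intro P
    induction P using MvPolynomial.induction_on' with
    | add P Q hP hQ => simp [hP, hQ]
    | monomial α c =>
      have h2 : monomial α c = c • monomial α (1 : ℂ) := by
        rw [smul_monomial, smul_eq_mul, mul_one]
      rw [h2, map_smul, map_smul, map_smul, hQm, coeff_smul, coeff_monomial,
        weightedHomogeneousComponent_of_mem
          (isWeightedHomogeneous_monomial w α (1 : ℂ) rfl)]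
      by_cases h : Finsupp.weight w α = ν
      · simp [h]
      · simp [h, Ne.symm h]
  have h2 : Q P = 0 := by
    apply MvPolynomial.funext
    intro t
    have h3 : (aeval t).comp Q = aeval fun s => ((w s).prod fun i k => t i ^ k) * x s := by
      ext s
      simp [Q, eval_monomial, mul_comm]
    have h4 := DFunLike.congr_fun h3 P
    rw [hP _ (hV t x hx)] at h4
    simpa [aeval_eq_eval] using h4
  rw [← h1, h2, coeff_zero]

theorem homog_idealMX (z : Equiv.Perm (Fin N)) : Homog (wt N) (idealMX z) := by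
  apply homog_of_torus
  rintro t _ ⟨A, hA, rfl⟩
  refine ⟨_, diag_mem_MX hA t, ?_⟩
  funext s
  simp [wt, Finsupp.prod_add_index', pow_add]

theorem idealMX_ne_top (z : Equiv.Perm (Fin N)) : idealMX z ≠ ⊤ := by
  rw [Ideal.ne_top_iff_one, mem_idealMX]
  intro h
  simpa using h 0 (zero_mem_MX z)

theorem krull_V : ringKrullDim (MvPolynomial (Pos N) ℂ) = (Fintype.card (Pos N) : ℕ) := by
  rw [MvPolynomial.ringKrullDim_of_isNoetherianRing, ringKrullDim_eq_zero_of_field, zero_add,
    Nat.card_eq_fintype_card]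

theorem exists_dim (z : Equiv.Perm (Fin N)) : ∃ d : ℕ, d ≤ Fintype.card (Pos N) ∧
    ringKrullDim (MvPolynomial (Pos N) ℂ ⧸ idealMX z) = d := by
  have := Ideal.Quotient.nontrivial_iff.mpr (idealMX_ne_top z)
  have h0 := ringKrullDim_nonneg_of_nontrivial (R := MvPolynomial (Pos N) ℂ ⧸ idealMX z)
  have h1 := ringKrullDim_quotient_le (idealMX z)
  rw [krull_V] at h1
  generalize ringKrullDim (MvPolynomial (Pos N) ℂ ⧸ idealMX z) = a at h0 h1
  induction a using WithBot.recBotCoe with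
  | bot => simp at h0
  | coe a =>
    induction a using ENat.recTopCoe with
    | top =>
      have h2 : (⊤ : ℕ∞) ≤ (Fintype.card (Pos N) : ℕ∞) := by exact_mod_cast h1
      exact absurd (top_le_iff.mp h2) (ENat.natCast_ne_top _)
    | coe a => exact ⟨a, by exact_mod_cast h1, rfl⟩

/-- The dimension of `MX z`. -/
noncomputable def dimX (z : Equiv.Perm (Fin N)) : ℕ := (exists_dim z).choose

theorem dimX_le (z : Equiv.Perm (Fin N)) : dimX z ≤ Fintype.card (Pos N) :=
  (exists_dim z).choose_spec.1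

theorem krull_eq_dimX (z : Equiv.Perm (Fin N)) :
    ringKrullDim (MvPolynomial (Pos N) ℂ ⧸ idealMX z) = dimX z := (exists_dim z).choose_spec.2

/-- The codimension of `MX z`. -/
noncomputable def cod (z : Equiv.Perm (Fin N)) : ℕ := Fintype.card (Pos N) - dimX z

theorem codim_iff (z : Equiv.Perm (Fin N)) (c : ℕ) :
    (c : WithBot ℕ∞) + ringKrullDim (MvPolynomial (Pos N) ℂ ⧸ idealMX z) =
      ringKrullDim (MvPolynomial (Pos N) ℂ) ↔ c = cod z := by
  rw [krull_eq_dimX, krull_V, ← Nat.cast_add, Nat.cast_inj, cod]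
  have := dimX_le z
  omega

theorem exists_K (z : Equiv.Perm (Fin N)) : ∃ K : MvPolynomial (Fin N) ℤ, IsKu (u0 N) (MX z) K ∧
    ∃ G : MvPolynomial (Fin N) (Polynomial ℤ),
      C ((-Polynomial.X) ^ cod z) * G = sub1 (Fin N) K := by
  obtain ⟨K, hK, hd⟩ := serre wt_ne_zero (idealMX z) (homog_idealMX z)
  refine ⟨K, ?_, ?_⟩
  · rw [IsKu, coe_DP_u0, ← hilb_idealMX, hilb_eq, hK]
  · obtain ⟨G, hG⟩ := hd (cod z) (by rw [← krull_V, (codim_iff z _).mpr rfl])
    refine ⟨C ((-1) ^ cod z) * G, ?_⟩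
    rw [hG, ← mul_assoc, ← map_mul, ← mul_pow]
    simp

/-- The `K`-polynomial of `MX z`. -/
noncomputable def Kz (z : Equiv.Perm (Fin N)) : MvPolynomial (Fin N) ℤ := (exists_K z).choose

theorem isKu_Kz (z : Equiv.Perm (Fin N)) : IsKu (u0 N) (MX z) (Kz z) := (exists_K z).choose_spec.1

/-- The orthogonal Grothendieck polynomial. -/
noncomputable def Gz (z : Equiv.Perm (Fin N)) : MvPolynomial (Fin N) (Polynomial ℤ) :=
  (exists_K z).choose_spec.2.choose

theorem Gz_spec (z : Equiv.Perm (Fin N)) :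
    C ((-Polynomial.X) ^ cod z) * Gz z = sub1 (Fin N) (Kz z) :=
  (exists_K z).choose_spec.2.choose_spec

theorem isOrthGroth_iff (z : Equiv.Perm (Fin N)) (G : MvPolynomial (Fin N) (Polynomial ℤ)) :
    IsOrthGroth z G ↔ G = Gz z := by
  constructor
  · rintro ⟨K, c, h1, h2, h3⟩
    rw [IsKClass, isK_iff] at h1
    rw [IsCodim, codim_iff] at h2
    rw [h1.unique (isKu_Kz z), h2] at h3
    have h4 := h3.trans (Gz_spec z).symm
    refine mul_left_cancel₀ ?_ h4
    rw [Ne, C_eq_zero]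
    exact pow_ne_zero _ (neg_ne_zero.mpr Polynomial.X_ne_zero)
  · rintro rfl
    exact ⟨Kz z, cod z, (isK_iff z _).mpr (isKu_Kz z), (codim_iff z _).mpr rfl, Gz_spec z⟩

end Pool.Agent.MP_ef387b_co
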