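import Mathlib

/-!
Statement-level definitions for orthogonal Grothendieck polynomials, their stable limits and the
K-theoretic Schur Q-functions.  All indices are 0-based.
-/

namespace Pool.Agent.MP_ef387b_co

open MvPolynomial

/-- Positions `(i, j)` with `i ≤ j`: the coordinates `A i j` of the space `V` of complex symmetric
`n × n` matrices. -/
abbrev Pos (n : ℕ) : Type := {p : Fin n × Fin n // p.1 ≤ p.2}

/-- The torus weight `a_i a_j` of the coordinate `A i j`, as an exponent vector. -/
noncomputable def wt (n : ℕ) (p : Pos n) : Fin n →₀ ℕ :=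
  Finsupp.single p.1.1 1 + Finsupp.single p.1.2 1

/-- The rank of the upper-left submatrix on the rows `≤ i` and the columns `≤ j`. -/
noncomputable def cornerRank {n : ℕ} (A : Matrix (Fin n) (Fin n) ℂ) (i j : Fin n) : ℕ :=
  (A.toBlock (fun a => a ≤ i) (fun b => b ≤ j)).rank

/-- The orthogonal matrix Schubert variety of `z`. -/
def MX {n : ℕ} (z : Equiv.Perm (Fin n)) : Set (Matrix (Fin n) (Fin n) ℂ) :=
  {A | A.IsSymm ∧ ∀ i j, cornerRank A i j ≤ cornerRank (z.permMatrix ℂ) i j}

/-- The ideal of `ℂ[V]` of all polynomials vanishing on `MX z`. -/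
noncomputable def idealMX {n : ℕ} (z : Equiv.Perm (Fin n)) : Ideal (MvPolynomial (Pos n) ℂ) :=
  vanishingIdeal ℂ ((fun (A : Matrix (Fin n) (Fin n) ℂ) (p : Pos n) => A p.1.1 p.1.2) '' MX z)

/-- The dimension of the image under `π` of the space of polynomials of weight `μ` in `ℂ[V]`. -/
noncomputable def pieceDim {n : ℕ} {B : Type} [CommRing B] [Algebra ℂ B]
    (π : MvPolynomial (Pos n) ℂ →ₐ[ℂ] B) (μ : Fin n →₀ ℕ) : ℕ :=
  Module.finrank ℂ ((weightedHomogeneousSubmodule ℂ (wt n) μ).map π.toLinearMap)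

/-- The multigraded Hilbert series of `ℂ[V] / I`: the coefficient of `a ^ μ` is the dimension of the
image in `ℂ[V] / I` of the space of polynomials of weight `μ`. -/
noncomputable def hilb {n : ℕ} (I : Ideal (MvPolynomial (Pos n) ℂ)) : MvPowerSeries (Fin n) ℤ :=
  fun μ => (pieceDim (Ideal.Quotient.mkₐ ℂ I) μ : ℤ)

/-- `K` is the `K`-class of `MX z`: the ratio of the Hilbert series of `ℂ[V] / I(MX z)` and
of `ℂ[V]`. -/
def IsKClass {n : ℕ} (z : Equiv.Perm (Fin n)) (K : MvPolynomial (Fin n) ℤ) : Prop :=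
  (K : MvPowerSeries (Fin n) ℤ) * hilb ⊥ = hilb (idealMX z)

/-- `c` is the codimension `dim V - dim (MX z)` (Krull dimensions of the coordinate rings). -/
def IsCodim {n : ℕ} (z : Equiv.Perm (Fin n)) (c : ℕ) : Prop :=
  (c : WithBot ℕ∞) + ringKrullDim (MvPolynomial (Pos n) ℂ ⧸ idealMX z) =
    ringKrullDim (MvPolynomial (Pos n) ℂ)

/-- `G ∈ ℤ[β][x]` is the orthogonal Grothendieck polynomial of `z`: `(-β) ^ c * G = K (1 + β x)`,
where `K` is the `K`-class and `c` the codimension of `MX z`; `β` is `Polynomial.X`. -/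
def IsOrthGroth {n : ℕ} (z : Equiv.Perm (Fin n)) (G : MvPolynomial (Fin n) (Polynomial ℤ)) : Prop :=
  ∃ (K : MvPolynomial (Fin n) ℤ) (c : ℕ), IsKClass z K ∧ IsCodim z c ∧
    C ((-Polynomial.X) ^ c) * G =
      aeval (fun i => (1 + C Polynomial.X * X i : MvPolynomial (Fin n) (Polynomial ℤ))) K

/-- The permutation `1^m × z` of `Fin (m + n)`: it fixes the first `m` points and sends `m + i` to
`m + z i`. -/
def oneTimes (m : ℕ) {n : ℕ} (z : Equiv.Perm (Fin n)) : Equiv.Perm (Fin (m + n)) :=
  finSumFinEquiv.permCongr (Equiv.Perm.sumCongr 1 z)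

/-- `F ∈ ℤ[β][[x_0, x_1, …]]` is the coefficientwise limit of the polynomials `G m`: the coefficient
of each monomial `β ^ j x ^ α` in `G m` equals that in `F` for all large `m`. -/
def IsStableLimit {n : ℕ} (G : (m : ℕ) → MvPolynomial (Fin (m + n)) (Polynomial ℤ))
    (F : MvPowerSeries ℕ (Polynomial ℤ)) : Prop :=
  ∀ (α : ℕ →₀ ℕ) (j : ℕ), ∃ M : ℕ, ∀ m ≥ M,
    (coeff α (rename Fin.val (G m))).coeff j = (MvPowerSeries.coeff α F).coeff j

/-- A strict partition: a strictly decreasing list of positive integers. -/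
structure StrictPartition where
  parts : List ℕ
  pos : ∀ a ∈ parts, 0 < a
  strict : parts.Pairwise (fun a b => b < a)

/-- The boxes `(i, j)` (row `i`, column `j`) of the shifted diagram: `i ≤ j < i + parts[i]`. -/
def StrictPartition.boxes (l : StrictPartition) : Finset (ℕ × ℕ) :=
  (Finset.range l.parts.length).biUnion fun i =>
    (Finset.Ico i (i + l.parts.getD i 0)).image fun j => (i, j)

/-- Set-valued marked shifted tableaux of shape `l`.  The letters `1' < 1 < 2' < 2 < ⋯` are coded by
`0 < 1 < 2 < 3 < ⋯`: even codes are primed, odd codes unprimed, and the code `e` carries the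
variable `x_(e / 2)` (0-based). -/
structure Tableau (l : StrictPartition) where
  entry : l.boxes → Finset ℕ
  nonempty : ∀ b, (entry b).Nonempty
  right : ∀ b b' : l.boxes, b'.1 = (b.1.1, b.1.2 + 1) → ∀ e ∈ entry b, ∀ e' ∈ entry b', e ≤ e'
  below : ∀ b b' : l.boxes, b'.1 = (b.1.1 + 1, b.1.2) → ∀ e ∈ entry b, ∀ e' ∈ entry b', e ≤ e'
  unprimed : ∀ e, Odd e → ∀ b b' : l.boxes, b.1.2 = b'.1.2 → e ∈ entry b → e ∈ entry b' → b = b'
  primed : ∀ e, Even e → ∀ b b' : l.boxes, b.1.1 = b'.1.1 → e ∈ entry b → e ∈ entry b' → b = b'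

/-- The total number of entries of a tableau. -/
def Tableau.size {l : StrictPartition} (T : Tableau l) : ℕ :=
  ∑ b, (T.entry b).card

/-- The exponent vector of the monomial of a tableau: `x_k` is counted once for each entry `k` or
`k'`. -/
noncomputable def Tableau.content {l : StrictPartition} (T : Tableau l) : ℕ →₀ ℕ :=
  ∑ b, ∑ e ∈ T.entry b, Finsupp.single (e / 2) 1

/-- Only finitely many tableaux have a given content, so the sum defining `GQ` is a finite sum. -/
theorem Tableau.finite_content (l : StrictPartition) (α : ℕ →₀ ℕ) :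
    Finite {T : Tableau l // T.content = α} := by
  let E : Finset ℕ := α.support.biUnion fun k => {2 * k, 2 * k + 1}
  have hE : ∀ (T : {T : Tableau l // T.content = α}) (b : l.boxes), T.1.entry b ∈ E.powerset := by
    intro T b
    rw [Finset.mem_powerset]
    intro e he
    have h1 : Finsupp.single (e / 2) 1 ≤ α := by
      rw [← T.2]
      exact le_trans (Finset.single_le_sum (f := fun e => Finsupp.single (e / 2) 1)
        (fun _ _ => zero_le) he) (Finset.single_le_sum
          (f := fun b => ∑ e ∈ T.1.entry b, Finsupp.single (e / 2) 1) (fun _ _ => zero_le)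
          (Finset.mem_univ b))
    rw [Finsupp.single_le_iff] at h1
    simp only [E, Finset.mem_biUnion, Finsupp.mem_support_iff, Finset.mem_insert,
      Finset.mem_singleton]
    exact ⟨e / 2, by omega, by omega⟩
  refine Finite.of_injective (fun T b => (⟨T.1.entry b, hE T b⟩ : E.powerset)) ?_
  rintro ⟨⟨f, _⟩, _⟩ ⟨⟨g, _⟩, _⟩ h
  have : f = g := funext fun b => congrArg Subtype.val (congrFun h b)
  subst this
  rfl

/-- The function `GQ_l ∈ ℤ[β][[x]]`: the coefficient of `x ^ α` is the (finite) sum of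
`β ^ (|T| - |l|)` over the tableaux `T` of shape `l` and content `α`. -/
noncomputable def GQ (l : StrictPartition) : MvPowerSeries ℕ (Polynomial ℤ) :=
  fun α => ∑ᶠ T : {T : Tableau l // T.content = α}, Polynomial.X ^ (T.1.size - l.parts.sum)

/-- `F` is a finite `ℕ[β]`-linear combination of the functions `GQ_l`. -/
def InGQSpan (F : MvPowerSeries ℕ (Polynomial ℤ)) : Prop :=
  ∃ (S : Finset StrictPartition) (c : StrictPartition → Polynomial ℕ),
    F = ∑ l ∈ S, (c l).map (Nat.castRingHom ℤ) • GQ l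

/-- The involution `351624 = (1 3)(2 5)(4 6)`, written on `0, …, 5`. -/
def z351624 : Equiv.Perm (Fin 6) :=
  Equiv.swap 0 2 * Equiv.swap 1 4 * Equiv.swap 3 5

end Pool.Agent.MP_ef387b_co
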