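import Pool.Agent.MP_ef387b_co.Fibre

/-!
Existence of the stable limit for every involution, and a negative coefficient for `351624`.
-/

namespace Pool.Agent.MP_ef387b_co

open MvPolynomial

theorem oneTimes_castAdd (m : ℕ) {n : ℕ} (z : Equiv.Perm (Fin n)) (i : Fin m) :
    oneTimes m z (Fin.castAdd n i) = Fin.castAdd n i := by
  simp [oneTimes, Equiv.permCongr_apply]

theorem oneTimes_natAdd (m : ℕ) {n : ℕ} (z : Equiv.Perm (Fin n)) (j : Fin n) :
    oneTimes m z (Fin.natAdd m j) = Fin.natAdd m (z j) := by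
  simp [oneTimes, Equiv.permCongr_apply]

theorem oneTimes_of_lt (m : ℕ) {n : ℕ} (z : Equiv.Perm (Fin n)) (a : Fin (m + n)) (ha : a.1 < m) :
    oneTimes m z a = a :=
  oneTimes_castAdd m z ⟨a.1, ha⟩

/-- Skipping the index `r`. -/
def skip (m n r : ℕ) (a : Fin (m + n)) : Fin (m + 1 + n) :=
  ⟨if a.1 < r then a.1 else a.1 + 1, by split_ifs <;> omega⟩

theorem ins_oneTimes {m n r : ℕ} (hr : r ≤ m) (z : Equiv.Perm (Fin n)) :
    Ins (oneTimes m z) (oneTimes (m + 1) z) ⟨r, by omega⟩ (skip m n r) where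
  mono := by
    intro a b hab
    have : a.1 < b.1 := hab
    simp only [skip, Fin.mk_lt_mk]
    split_ifs <;> omega
  ne := by
    intro a h
    have := congrArg Fin.val h
    simp only [skip] at this
    split_ifs at this <;> omega
  cover := by
    intro b
    rcases lt_trichotomy b.1 r with h | h | h
    · right
      exact ⟨⟨b.1, by omega⟩, Fin.ext (by simp [skip, h])⟩
    · left
      exact Fin.ext h
    · right
      refine ⟨⟨b.1 - 1, by omega⟩, Fin.ext ?_⟩
      simp only [skip]
      rw [if_neg (by omega)]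
      omega
  fix := by
    intro b hb
    have : b.1 ≤ r := hb
    exact oneTimes_of_lt _ z b (by omega)
  comm := by
    intro a
    induction a using Fin.addCases with
    | left i =>
      rw [oneTimes_castAdd, oneTimes_of_lt]
      have := i.2
      simp only [skip, Fin.val_castAdd]
      split_ifs <;> omega
    | right j =>
      have key : ∀ j : Fin n, skip m n r (Fin.natAdd m j) = Fin.natAdd (m + 1) j := by
        intro j
        apply Fin.ext
        simp only [skip, Fin.val_natAdd]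
        rw [if_neg (by omega)]
        omega
      rw [oneTimes_natAdd, key, key, oneTimes_natAdd]

/-- Setting the variables `a_i`, `i ≥ r`, equal to `1`. -/
noncomputable def spec (r : ℕ) : MvPolynomial ℕ ℤ →ₐ[ℤ] MvPolynomial ℕ ℤ :=
  aeval fun i => if i < r then X i else 1

/-- Setting the variables `x_i`, `i ≥ r`, equal to `0`. -/
noncomputable def kill (r : ℕ) :
    MvPolynomial ℕ (Polynomial ℤ) →ₐ[Polynomial ℤ] MvPolynomial ℕ (Polynomial ℤ) :=
  aeval fun i => if i < r then X i else 0

theorem kill_sub1 (r : ℕ) (K : MvPolynomial ℕ ℤ) : kill r (sub1 ℕ K) = sub1 ℕ (spec r K) := by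
  have : ((kill r).restrictScalars ℤ).comp (sub1 ℕ) = (sub1 ℕ).comp (spec r) := by
    apply MvPolynomial.algHom_ext
    intro i
    by_cases h : i < r <;> simp [kill, sub1, spec, h]
  exact DFunLike.congr_fun this K

theorem kill_monomial (r : ℕ) (β : ℕ →₀ ℕ) (c : Polynomial ℤ) :
    kill r (monomial β c) = if ∀ i ∈ β.support, i < r then monomial β c else 0 := by
  rw [kill, aeval_monomial]
  split_ifs with h
  · rw [monomial_eq, algebraMap_eq]
    congr 1
    exact Finsupp.prod_congr fun i hi => by rw [if_pos (h i hi)]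
  · push Not at h
    obtain ⟨i, hi, hr⟩ := h
    rw [Finsupp.prod, Finset.prod_eq_zero hi, mul_zero]
    rw [if_neg (not_lt.mpr hr), zero_pow (Finsupp.mem_support_iff.mp hi)]

theorem coeff_kill (r : ℕ) (α : ℕ →₀ ℕ) (P : MvPolynomial ℕ (Polynomial ℤ)) :
    coeff α (kill r P) = if ∀ i ∈ α.support, i < r then coeff α P else 0 := by
  induction P using MvPolynomial.induction_on' with
  | monomial β c =>
    rw [kill_monomial]
    by_cases h : β = α
    · subst h
      split_ifs <;> simp
    · split_ifs <;> simp [coeff_monomial, h]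
  | add P Q hP hQ =>
    rw [map_add, coeff_add, hP, hQ, coeff_add]
    split_ifs <;> simp

theorem rename_sub1 {N : ℕ} (K : MvPolynomial (Fin N) ℤ) :
    rename Fin.val (sub1 (Fin N) K) = sub1 ℕ (rename Fin.val K) := by
  have : ((rename Fin.val).restrictScalars ℤ).comp (sub1 (Fin N)) =
      (sub1 ℕ).comp (rename Fin.val) := by
    apply MvPolynomial.algHom_ext
    intro i
    simp [sub1]
  exact DFunLike.congr_fun this K

theorem GN_spec {N : ℕ} (z : Equiv.Perm (Fin N)) (r : ℕ) :
    C ((-Polynomial.X) ^ cod z) * kill r (rename Fin.val (Gz z)) =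
      sub1 ℕ (spec r (rename Fin.val (Kz z))) := by
  rw [← kill_sub1, ← rename_sub1, ← Gz_spec, map_mul, map_mul, rename_C, algHom_C, algebraMap_eq]

section

variable {n : ℕ} (z : Equiv.Perm (Fin n))

theorem spec_succ {m r : ℕ} (hr : r ≤ m) :
    spec r (rename Fin.val (Kz (oneTimes (m + 1) z))) =
      spec r (rename Fin.val (Kz (oneTimes m z))) := by
  have h := (ins_oneTimes hr z).sp_Kz
  have h1 : ((spec r).comp (rename Fin.val)).comp (sp (⟨r, by omega⟩ : Fin (m + 1 + n))) =
      (spec r).comp (rename Fin.val) := by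
    apply MvPolynomial.algHom_ext
    intro i
    by_cases hi : i = ⟨r, by omega⟩
    · simp [sp, spec, hi]
    · simp [sp, hi]
  have h2 : ((spec r).comp (rename Fin.val)).comp (rename (skip m n r)) =
      (spec r).comp (rename Fin.val) := by
    apply MvPolynomial.algHom_ext
    intro i
    by_cases hi : i.1 < r
    · simp [spec, skip, hi]
    · have : ¬ i.1 + 1 < r := by omega
      simp [spec, skip, hi, this]
  have h3 := DFunLike.congr_fun h1 (Kz (oneTimes (m + 1) z))
  have h4 := DFunLike.congr_fun h2 (Kz (oneTimes m z))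
  simp only [AlgHom.comp_apply] at h3 h4
  rw [← h3, h, h4]

theorem spec_const {m0 r : ℕ} (hr : r ≤ m0) : ∀ m, m0 ≤ m →
    spec r (rename Fin.val (Kz (oneTimes m z))) = spec r (rename Fin.val (Kz (oneTimes m0 z))) := by
  intro m hm
  induction m, hm using Nat.le_induction with
  | base => rfl
  | succ m hm ih => rw [spec_succ z (hr.trans hm), ih]

theorem exists_cod_const : ∃ M0, ∀ m ≥ M0, cod (oneTimes m z) = cod (oneTimes M0 z) :=
  eventually_const_of_step (fun m => cod (oneTimes m z)) 0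
    fun m _ => (ins_oneTimes (Nat.zero_le m) z).cod_le

theorem kill_const {M0 : ℕ} (hM : ∀ m ≥ M0, cod (oneTimes m z) = cod (oneTimes M0 z)) {m0 r : ℕ}
    (hr : M0 + r ≤ m0) {m : ℕ} (hm : m0 ≤ m) :
    kill r (rename Fin.val (Gz (oneTimes m z))) = kill r (rename Fin.val (Gz (oneTimes m0 z))) := by
  have h1 := GN_spec (oneTimes m z) r
  have h2 := GN_spec (oneTimes m0 z) r
  rw [spec_const z (show r ≤ m0 by omega) m hm, hM m (by omega), ← hM m0 (by omega), ← h2] at h1
  refine mul_left_cancel₀ ?_ h1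
  rw [Ne, C_eq_zero]
  exact pow_ne_zero _ (neg_ne_zero.mpr Polynomial.X_ne_zero)

/-- The stable limit exists, with an explicit rate once the codimension is constant. -/
theorem exists_limit {M0 : ℕ} (hM : ∀ m ≥ M0, cod (oneTimes m z) = cod (oneTimes M0 z)) :
    ∃ F : MvPowerSeries ℕ (Polynomial ℤ), ∀ (α : ℕ →₀ ℕ) (r : ℕ), (∀ i ∈ α.support, i < r) →
      ∀ m ≥ M0 + r, coeff α (rename Fin.val (Gz (oneTimes m z))) = MvPowerSeries.coeff α F := by
  let b : (ℕ →₀ ℕ) → ℕ := fun α => α.support.sup fun i => i + 1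
  have hb : ∀ α : ℕ →₀ ℕ, ∀ i ∈ α.support, i < b α := fun α i hi =>
    Finset.le_sup (f := fun i => i + 1) hi
  refine ⟨fun α => coeff α (rename Fin.val (Gz (oneTimes (M0 + b α) z))), fun α r hr m hm => ?_⟩
  have h1 : b α ≤ r := Finset.sup_le fun i hi => hr i hi
  have h2 := congrArg (coeff α) (kill_const z hM (le_refl (M0 + b α)) (m := m) (by omega))
  rw [coeff_kill, coeff_kill, if_pos (hb α), if_pos (hb α)] at h2
  exact h2

end

theorem GQ_nonneg (l : StrictPartition) (α : ℕ →₀ ℕ) (j : ℕ) :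
    0 ≤ (MvPowerSeries.coeff α (GQ l)).coeff j := by
  refine finsum_induction (fun q : Polynomial ℤ => 0 ≤ q.coeff j) (by simp) ?_ ?_
  · intro a b ha hb
    rw [Polynomial.coeff_add]
    exact add_nonneg ha hb
  · intro T
    rw [Polynomial.coeff_X_pow]
    split_ifs <;> simp

theorem InGQSpan.nonneg {F : MvPowerSeries ℕ (Polynomial ℤ)} (h : InGQSpan F) (α : ℕ →₀ ℕ)
    (j : ℕ) : 0 ≤ (MvPowerSeries.coeff α F).coeff j := by
  obtain ⟨S, c, rfl⟩ := h
  rw [map_sum, Polynomial.finsetSum_coeff]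
  refine Finset.sum_nonneg fun l _ => ?_
  rw [map_smul, smul_eq_mul, Polynomial.coeff_mul]
  refine Finset.sum_nonneg fun x _ => mul_nonneg ?_ (GQ_nonneg l α _)
  simp

/-- Evaluation at `β = 1`, `x_i = t`. -/
noncomputable def evt (t : ℤ) : MvPolynomial ℕ (Polynomial ℤ) →+* ℤ :=
  eval₂Hom (Polynomial.evalRingHom 1) fun _ => t

theorem evt_nonneg {t : ℤ} (ht : 0 ≤ t) (P : MvPolynomial ℕ (Polynomial ℤ))
    (hP : ∀ α j, 0 ≤ (coeff α P).coeff j) : 0 ≤ evt t P := by
  rw [evt, coe_eval₂Hom, eval₂_eq]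
  refine Finset.sum_nonneg fun α _ => mul_nonneg ?_
    (Finset.prod_nonneg fun i _ => pow_nonneg ht _)
  rw [Polynomial.coe_evalRingHom, Polynomial.eval_eq_sum_range]
  exact Finset.sum_nonneg fun j _ => mul_nonneg (hP α j) (by simp)

theorem evt_K (t : ℤ) (K : MvPolynomial (Fin 8) ℤ) :
    evt t (sub1 ℕ (spec 2 (rename Fin.val K))) = eval (fun _ => 1 + t) (spC 8 2 8 K) := by
  induction K using MvPolynomial.induction_on with
  | C a => simp
  | add P Q hP hQ => simp only [map_add, hP, hQ]
  | mul_X P i hP =>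
    simp only [map_mul, hP]
    congr 1
    by_cases h : i.1 < 2
    · have : ¬ 2 ≤ i.1 := by omega
      rw [rename_X, spec, aeval_X, if_pos h]
      simp [evt, sub1, spC, this]
    · have : 2 ≤ i.1 := by omega
      rw [rename_X, spec, aeval_X, if_neg h]
      simp [spC, this]

theorem not_inGQSpan {M0 : ℕ} {F : MvPowerSeries ℕ (Polynomial ℤ)} (hF : ∀ (α : ℕ →₀ ℕ) (r : ℕ), (∀ i ∈ α.support, i < r) →
      ∀ m ≥ M0 + r, coeff α (rename Fin.val (Gz (oneTimes m z351624))) = MvPowerSeries.coeff α F) :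
    ¬ InGQSpan F := by
  intro h
  have hP : ∀ α j,
      0 ≤ (coeff α (kill 2 (rename Fin.val (Gz (oneTimes (M0 + 2) z351624))))).coeff j := by
    intro α j
    rw [coeff_kill]
    split_ifs with hα
    · rw [hF α 2 hα _ le_rfl]
      exact h.nonneg α j
    · simp
  have h1 := GN_spec (oneTimes (M0 + 2) z351624) 2
  rw [spec_const z351624 (le_refl 2) (M0 + 2) (by omega)] at h1
  have hz : ∀ a : Fin 8, oneTimes 2 z351624 a = v8 a := by decide
  have h2 : ∀ t : ℤ, (-1) ^ cod (oneTimes (M0 + 2) z351624) *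
      evt t (kill 2 (rename Fin.val (Gz (oneTimes (M0 + 2) z351624)))) =
      eval (fun _ => 1 + t) (spC 8 2 8 (Kz (N := 8) (oneTimes 2 z351624))) := by
    intro t
    rw [← evt_K, ← h1, map_mul]
    simp [evt]
  have e1 := h2 1
  have e2 := h2 2
  rw [spC_Kz8 hz] at e1 e2
  have n1 := evt_nonneg zero_le_one _ hP
  have n2 := evt_nonneg zero_le_two _ hP
  norm_num at e1 e2
  rcases neg_one_pow_eq_or ℤ (cod (oneTimes (M0 + 2) z351624)) with hc | hc
  · rw [hc] at e1
    linarith
  · rw [hc] at e2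
    linarith

end Pool.Agent.MP_ef387b_co
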