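import Pool.Agent.MP_ef387b_co.Spec

/-!
Pivoting: slicing a set of matrices at `A p p = 1` and clearing part of the row `p`.
-/

namespace Pool.Agent.MP_ef387b_co

open MvPolynomial Filter

section Dead

variable {τ σ σ' A : Type*} [CommRing A] [Algebra ℂ A]

theorem dead_mem (w' : σ' → τ →₀ ℕ) (g : σ' → A) {a : A} {v : τ →₀ ℕ}
    (h : a = 0 ∨ (v = 0 ∧ a = 1)) : a ∈ gp w' g v := by
  rcases h with rfl | ⟨rfl, rfl⟩
  · exact Submodule.zero_mem _
  · exact one_mem_gp w' g

theorem hs_subtype (w : σ → τ →₀ ℕ) (f : σ → A) (good : σ → Prop)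
    (h : ∀ s, ¬ good s → f s = 0 ∨ (w s = 0 ∧ f s = 1)) :
    hs w f = hs (fun s : {s // good s} => w s.1) (fun s => f s.1) := by
  apply hs_eq_of_gen
  · intro s
    by_cases hs : good s
    · exact gen_mem_gp (fun s : {s // good s} => w s.1) (fun s => f s.1) ⟨s, hs⟩
    · exact dead_mem _ _ (h s hs)
  · intro s
    exact gen_mem_gp w f s.1

theorem hs_cyl' {J : Type*} [Finite σ] [Fintype J] {w : σ → τ →₀ ℕ} {f : σ → A}
    (hw : ∀ s, w s = 0 → f s = 0 ∨ f s = 1) {v : J → τ →₀ ℕ} (hv : ∀ j, v j ≠ 0) :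
    hs (Sum.elim w v) (cyl f J) * ∏ j, (1 - MvPowerSeries.monomial (v j) (1 : ℤ)) = hs w f := by
  have hd : ∀ s, ¬ w s ≠ 0 → f s = 0 ∨ (w s = 0 ∧ f s = 1) := by
    intro s hs
    have hs := not_not.mp hs
    exact (hw s hs).imp id fun h => ⟨hs, h⟩
  rw [hs_subtype w f (fun s => w s ≠ 0) hd, ← hs_cyl (σ := {s // w s ≠ 0}) (w := fun s => w s.1) (fun s => s.2) hv]
  congr 1
  apply hs_eq_of_gen
  · rintro (s | j)
    · by_cases hs : w s ≠ 0
      · exact gen_mem_gp' _ _ (Sum.inl ⟨s, hs⟩) rfl rfl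
      · apply dead_mem
        rcases hd s hs with h | ⟨h1, h2⟩
        · left; simp [cyl, h]
        · right; exact ⟨h1, by simp [cyl, h2]⟩
    · exact gen_mem_gp' _ _ (Sum.inr j) rfl rfl
  · rintro (s | j)
    · exact gen_mem_gp' _ _ (Sum.inl s.1) rfl rfl
    · exact gen_mem_gp' _ _ (Sum.inr j) rfl rfl

theorem lim_slice' {Z : Type*} [Finite σ] (w : σ → τ →₀ ℕ) (f : σ → Z → ℂ) (p : τ) (s0 : σ)
    (hw0 : w s0 = Finsupp.single p 2)
    (hw : ∀ s, s ≠ s0 → (w s).erase p = 0 → f s = 0 ∨ (w s = 0 ∧ f s = 1))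
    (hT : ∀ c : ℂ, c ≠ 0 → ∀ x, ∃ x', ∀ s, f s x' = c ^ (w s p) * f s x) :
    Lim p (hs w f * (1 + MvPowerSeries.monomial (Finsupp.single p 1) (1 : ℤ)))
      (hs (fun s => (w s).erase p) (fun s (y : {x // f s0 x = 1}) => f s y.1)) := by
  let good : σ → Prop := fun s => s = s0 ∨ (w s).erase p ≠ 0
  have hd : ∀ s, ¬ good s → f s = 0 ∨ (w s = 0 ∧ f s = 1) := by
    intro s hs
    simp only [good, not_or, not_not] at hs
    exact hw s hs.1 hs.2
  rw [hs_subtype w f good hd, hs_subtype (fun s => (w s).erase p) _ good (by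
    intro s hs
    rcases hd s hs with h | ⟨h1, h2⟩
    · left; funext y; rw [h]; rfl
    · right; exact ⟨by rw [h1]; simp, by funext y; rw [h2]; rfl⟩)]
  exact lim_slice (fun s : {s // good s} => w s.1) (fun s => f s.1) p ⟨s0, Or.inl rfl⟩ hw0
    (fun s hs => s.2.resolve_left fun h => hs (Subtype.ext h))
    (fun c hc x => (hT c hc x).imp fun x' h s => h s.1)

/-- Polynomials with function coefficients as functions on a product. -/
noncomputable def evp (Z J : Type*) : MvPolynomial J (Z → ℂ) →ₐ[ℂ] (Z × (J → ℂ) → ℂ) :=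
  aevalTower (pull Prod.fst) (fun j z => z.2 j)

theorem evp_C {Z J : Type*} (g : Z → ℂ) (z : Z × (J → ℂ)) : evp Z J (C g) z = g z.1 := by
  simp only [evp, aevalTower_C]; rfl

theorem evp_X {Z J : Type*} (j : J) (z : Z × (J → ℂ)) : evp Z J (X j) z = z.2 j := by
  simp [evp]

theorem evp_injective (Z J : Type*) : Function.Injective (evp Z J) := by
  rw [injective_iff_map_eq_zero]
  intro P hP
  have key : ∀ (P : MvPolynomial J (Z → ℂ)) (x : Z) (y : J → ℂ),
      evp Z J P (x, y) = eval y (map (Pi.evalRingHom (fun _ => ℂ) x) P) := by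
    intro P x y
    induction P using MvPolynomial.induction_on with
    | C a => simp [evp_C]
    | add P Q hP hQ => simp [hP, hQ]
    | mul_X P j hP => simp [hP, evp_X]
  ext m x
  have : map (Pi.evalRingHom (fun _ => ℂ) x) P = 0 := by
    apply MvPolynomial.funext
    intro y
    rw [← key, hP]
    simp
  have := congrArg (coeff m) this
  simpa [coeff_map] using this

/-- The Hilbert series of a product with an affine space. -/
theorem hs_prod {Z J : Type*} [Finite σ] [Fintype J] {w : σ → τ →₀ ℕ} {f : σ → Z → ℂ}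
    (hw : ∀ s, w s = 0 → f s = 0 ∨ f s = 1) {v : J → τ →₀ ℕ} (hv : ∀ j, v j ≠ 0) :
    hs (Sum.elim w v) (Sum.elim (fun s (z : Z × (J → ℂ)) => f s z.1) (fun j z => z.2 j)) *
      ∏ j, (1 - MvPowerSeries.monomial (v j) (1 : ℤ)) = hs w f := by
  rw [← hs_cyl' hw hv, ← hs_map_of_injective (evp Z J) (evp_injective Z J)]
  congr 2
  funext s z
  rcases s with s | j
  · simp [cyl, evp_C]
  · simp [cyl, evp_X]

end Dead

section Pivot

variable {ι τ : Type*} [DecidableEq ι]

/-- The Hilbert series of the entries of the matrices in `S`, where the entry `(a, b)` has weight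
`u a + u b`. -/
noncomputable def HM (u : ι → τ →₀ ℕ) (S : Set (Matrix ι ι ℂ)) : MvPowerSeries τ ℤ :=
  hs (fun s : ι × ι => u s.1 + u s.2) (fun s (A : S) => A.1 s.1 s.2)

/-- Adding multiples of the row and of the column `p`. -/
def cong (p : ι) (y : ι → ℂ) (A : Matrix ι ι ℂ) : Matrix ι ι ℂ :=
  Matrix.of fun a b => A a b + y a * A p b + y b * A a p + y a * y b * A p p

/-- Scaling the row and the column `p`. -/
def scale (p : ι) (c : ℂ) (A : Matrix ι ι ℂ) : Matrix ι ι ℂ :=
  Matrix.of fun a b => (if a = p then c else 1) * (if b = p then c else 1) * A a b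

omit [DecidableEq ι] in
theorem cong_cong (p : ι) (y : ι → ℂ) (hy : y p = 0) (A : Matrix ι ι ℂ) :
    cong p (-y) (cong p y A) = A := by
  ext a b
  simp only [cong, Matrix.of_apply, Pi.neg_apply, hy]
  ring

theorem pivot [Fintype ι] [DecidableEq τ] (u : ι → τ →₀ ℕ) (S : Set (Matrix ι ι ℂ)) (p : ι) (q : τ)
    (J : Finset ι) (hup : u p = Finsupp.single q 1) (hu : ∀ i, i ≠ p → u i q = 0)
    (hpJ : p ∉ J) (hJ : ∀ j ∈ J, u j ≠ 0)
    (hscale : ∀ c : ℂ, c ≠ 0 → ∀ A ∈ S, scale p c A ∈ S)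
    (hcong : ∀ y : ι → ℂ, (∀ i ∉ J, y i = 0) → ∀ A ∈ S, cong p y A ∈ S)
    (hdead : ∀ a b, (a, b) ≠ (p, p) → Function.update u p 0 a + Function.update u p 0 b = 0 →
      (∀ A ∈ S, A a b = 0) ∨ (u a + u b = 0 ∧ ∀ A ∈ S, A a b = 1))
    {K D : MvPolynomial τ ℤ}
    (hK : (K : MvPowerSeries τ ℤ) =
      HM u S * (1 - MvPowerSeries.monomial (Finsupp.single q 2) (1 : ℤ)) * D) :
    ((sp q K : MvPolynomial τ ℤ) : MvPowerSeries τ ℤ) *
        ∏ j ∈ J, (1 - MvPowerSeries.monomial (u j) (1 : ℤ)) =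
      HM (Function.update u p 0) {A | A ∈ S ∧ A p p = 1 ∧ ∀ j ∈ J, A p j = 0} *
        (sp q D : MvPolynomial τ ℤ) := by
  set u' := Function.update u p 0 with hu'
  set S' : Set (Matrix ι ι ℂ) := {A | A ∈ S ∧ A p p = 1 ∧ ∀ j ∈ J, A p j = 0} with hS'
  have hue : ∀ i, (u i).erase q = u' i := by
    intro i
    by_cases hi : i = p
    · subst hi; simp [hu', hup]
    · rw [hu', Function.update_of_ne hi,
        Finsupp.erase_of_notMem_support (by simpa using hu i hi)]
  have huJ : ∀ j ∈ J, u' j = u j := fun j hj =>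
    Function.update_of_ne (by rintro rfl; exact hpJ hj) _ _
  have hu'p : u' p = 0 := Function.update_self _ _ _
  have hlim := lim_slice' (fun s : ι × ι => u s.1 + u s.2) (fun s (A : S) => A.1 s.1 s.2) q (p, p)
    (by simp [hup, ← Finsupp.single_add]) (by
      rintro ⟨a, b⟩ hs h0
      rw [Finsupp.erase_add, hue, hue] at h0
      rcases hdead a b hs h0 with h | ⟨h1, h2⟩
      · left; funext A; exact h A.1 A.2
      · right; exact ⟨h1, funext fun A => h2 A.1 A.2⟩) (by
      intro c hc A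
      refine ⟨⟨scale p c A.1, hscale c hc A.1 A.2⟩, ?_⟩
      rintro ⟨a, b⟩
      simp only [scale, Matrix.of_apply, Finsupp.add_apply, pow_add]
      congr 2
      · split_ifs with h
        · subst h; simp [hup]
        · simp [hu a h]
      · split_ifs with h
        · subst h; simp [hup]
        · simp [hu b h])
  rw [sp_eq_of_lim hlim hK, mul_right_comm]
  congr 1
  have hprod := hs_prod (Z := S') (J := J) (w := fun s : ι × ι => u' s.1 + u' s.2)
    (f := fun s (A : S') => A.1 s.1 s.2) (by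
      rintro ⟨a, b⟩ h0
      by_cases hs : (a, b) = (p, p)
      · right
        obtain ⟨rfl, rfl⟩ := Prod.mk.inj hs
        exact funext fun A => A.2.2.1
      · rcases hdead a b hs h0 with h | ⟨-, h2⟩
        · left; funext A; exact h A.1 A.2.1
        · right; exact funext fun A => h2 A.1 A.2.1)
    (v := fun j : J => u j) (fun j => hJ j.1 j.2)
  rw [HM, ← hprod, ← Finset.prod_coe_sort J]
  congr 1
  -- the parametrisation of the slice
  let yt : (J → ℂ) → ι → ℂ := fun y i => if h : i ∈ J then y ⟨i, h⟩ else 0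
  have hyt : ∀ y, ∀ i ∉ J, yt y i = 0 := fun y i hi => dif_neg hi
  have hytp : ∀ y, yt y p = 0 := fun y => hyt y p hpJ
  let e : S' × (J → ℂ) → {A : S // A.1 p p = 1} := fun z =>
    ⟨⟨cong p (yt z.2) z.1.1, hcong _ (hyt z.2) _ z.1.2.1⟩, by
      simp [cong, hytp, z.1.2.2.1]⟩
  have he : Function.Surjective e := by
    rintro ⟨⟨A, hA⟩, hA1⟩
    let y : J → ℂ := fun j => A p j
    have hA1' : A p p = 1 := hA1
    refine ⟨(⟨cong p (-yt y) A, hcong _ (fun i hi => by simp [hyt y i hi]) _ hA, ?_, ?_⟩, y), ?_⟩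
    · simp [cong, hytp, hA1']
    · intro j hj
      simp [cong, hA1', yt, hj, y, hpJ]
    · apply Subtype.ext
      apply Subtype.ext
      have := cong_cong p (-yt y) (by simp [hytp]) A
      rw [neg_neg] at this
      exact this
  rw [← hs_map_of_injective (pull e) (pull_injective he)]
  simp only [Finsupp.erase_add, hue]
  set g : (ι × ι) ⊕ J → S' × (J → ℂ) → ℂ :=
    Sum.elim (fun s (z : S' × (J → ℂ)) => z.1.1 s.1 s.2) (fun j z => z.2 j) with hg
  set F : ι × ι → S' × (J → ℂ) → ℂ := fun s z => cong p (yt z.2) z.1.1 s.1 s.2 with hF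
  change hs (fun s : ι × ι => u' s.1 + u' s.2) F = hs _ g
  have hFp : ∀ i, ∀ hi : i ∈ J, F (p, i) = g (Sum.inr ⟨i, hi⟩) := by
    intro i hi
    funext z
    simp [hF, hg, cong, z.1.2.2.1, z.1.2.2.2 i hi, yt, hi, hpJ]
  apply hs_eq_of_gen
  · rintro ⟨a, b⟩
    have hy : ∀ i, (fun z : S' × (J → ℂ) => yt z.2 i) ∈
        gp (Sum.elim (fun s : ι × ι => u' s.1 + u' s.2) (fun j : J => u j)) g (u' i) := by
      intro i
      by_cases hi : i ∈ J
      · exact gen_mem_gp' _ _ (Sum.inr ⟨i, hi⟩) (by funext z; simp [yt, hi, hg]) (by simpa using huJ i hi)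
      · have : (fun z : S' × (J → ℂ) => yt z.2 i) = 0 := funext fun z => hyt _ i hi
        rw [this]; exact Submodule.zero_mem _
    have hent : ∀ a b, g (Sum.inl (a, b)) ∈
        gp (Sum.elim (fun s : ι × ι => u' s.1 + u' s.2) (fun j : J => u j)) g (u' a + u' b) :=
      fun a b => gen_mem_gp' _ _ (Sum.inl (a, b)) rfl rfl
    have : F (a, b) = g (Sum.inl (a, b)) + (fun z => yt z.2 a) * g (Sum.inl (p, b)) +
        (fun z => yt z.2 b) * g (Sum.inl (a, p)) +
        (fun z => yt z.2 a) * (fun z => yt z.2 b) * g (Sum.inl (p, p)) := by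
      funext z; simp [hF, hg, cong]
    rw [this]
    refine Submodule.add_mem _ (Submodule.add_mem _ (Submodule.add_mem _ (hent a b) ?_) ?_) ?_
    · exact mul_mem_gp' (hy a) (hent p b) (by simp [hu'p])
    · exact mul_mem_gp' (hy b) (hent a p) (by simp [hu'p, add_comm])
    · exact mul_mem_gp' (mul_mem_gp (hy a) (hy b)) (hent p p) (by simp [hu'p])
  · have hent : ∀ a b, F (a, b) ∈ gp (fun s : ι × ι => u' s.1 + u' s.2) F (u' a + u' b) :=
      fun a b => gen_mem_gp' _ _ (a, b) rfl rfl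
    have hy : ∀ i, (fun z : S' × (J → ℂ) => yt z.2 i) ∈
        gp (fun s : ι × ι => u' s.1 + u' s.2) F (u' i) := by
      intro i
      by_cases hi : i ∈ J
      · refine gen_mem_gp' _ _ (p, i) ?_ (by simp [hu'p])
        rw [hFp i hi]; funext z; simp [yt, hi, hg]
      · have : (fun z : S' × (J → ℂ) => yt z.2 i) = 0 := funext fun z => hyt _ i hi
        rw [this]; exact Submodule.zero_mem _
    rintro (⟨a, b⟩ | j)
    · have : g (Sum.inl (a, b)) = F (a, b) - (fun z => yt z.2 a) * F (p, b) -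
          (fun z => yt z.2 b) * F (a, p) +
          (fun z => yt z.2 a) * (fun z => yt z.2 b) * F (p, p) := by
        funext z
        simp only [hF, hg, cong, Matrix.of_apply, Sum.elim_inl, Pi.add_apply, Pi.sub_apply,
          Pi.mul_apply, hytp]
        ring
      rw [this]
      refine Submodule.add_mem _ (Submodule.sub_mem _ (Submodule.sub_mem _ (hent a b) ?_) ?_) ?_
      · exact mul_mem_gp' (hy a) (hent p b) (by simp [hu'p])
      · exact mul_mem_gp' (hy b) (hent a p) (by simp [hu'p, add_comm])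
      · exact mul_mem_gp' (mul_mem_gp (hy a) (hy b)) (hent p p) (by simp [hu'p])
    · rw [← hFp j.1 j.2]
      exact gen_mem_gp' _ _ (p, j.1) rfl (by simp [hu'p, huJ j.1 j.2])

end Pivot

end Pool.Agent.MP_ef387b_co
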