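import Pool.Agent.MP_ef387b_co.Defs
import Pool.Agent.MP_ef387b_co.Pivot

/-!
Rank lemmas for corner submatrices.
-/

namespace Pool.Agent.MP_ef387b_co

open Matrix Submodule

section General

variable {m m' n n' : Type*}

theorem rank_le_of_rows [Finite m] [Finite m'] [Fintype n] (M : Matrix m n ℂ) (M' : Matrix m' n ℂ)
    (h : ∀ a, M'.row a ∈ span ℂ (Set.range M.row)) : M'.rank ≤ M.rank := by
  rw [rank_eq_finrank_span_row, rank_eq_finrank_span_row]
  apply Submodule.finrank_mono
  rw [span_le]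
  rintro _ ⟨a, rfl⟩
  exact h a

theorem rank_toBlock_transpose [Fintype m] [Fintype n] (M : Matrix m n ℂ) (P : m → Prop)
    (Q : n → Prop) [DecidablePred P] [DecidablePred Q] :
    (Mᵀ.toBlock Q P).rank = (M.toBlock P Q).rank :=
  rank_transpose (M.toBlock P Q)

theorem rank_rowop [Finite m] [Fintype n] (M : Matrix m n ℂ) (P : m → Prop) (Q : n → Prop)
    [DecidablePred Q] (p : m) (y : m → ℂ) (h : ∀ a, P a → y a ≠ 0 → P p) :
    ((Matrix.of fun a b => M a b + y a * M p b).toBlock P Q).rank ≤ (M.toBlock P Q).rank := by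
  apply rank_le_of_rows
  intro a
  by_cases hy : y a.1 = 0
  · refine subset_span ⟨a, ?_⟩
    funext b
    simp [hy]
  · have : ((Matrix.of fun a b => M a b + y a * M p b).toBlock P Q).row a =
        (M.toBlock P Q).row a + y a.1 • (M.toBlock P Q).row ⟨p, h a.1 a.2 hy⟩ := by
      funext b
      simp
    rw [this]
    exact add_mem (subset_span ⟨a, rfl⟩) (smul_mem _ _ (subset_span ⟨_, rfl⟩))

theorem rank_rowscale [Finite m] [Fintype n] (M : Matrix m n ℂ) (P : m → Prop) (Q : n → Prop)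
    [DecidablePred Q] (t : m → ℂ) :
    ((Matrix.of fun a b => t a * M a b).toBlock P Q).rank ≤ (M.toBlock P Q).rank := by
  apply rank_le_of_rows
  intro a
  have : ((Matrix.of fun a b => t a * M a b).toBlock P Q).row a =
      t a.1 • (M.toBlock P Q).row a := by
    funext b
    simp
  rw [this]
  exact smul_mem _ _ (subset_span ⟨_, rfl⟩)

theorem rank_cong_le [Fintype m] (A : Matrix m m ℂ) (P Q : m → Prop) [DecidablePred P]
    [DecidablePred Q] (p : m) (y : m → ℂ) (hP : ∀ a, P a → y a ≠ 0 → P p)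
    (hQ : ∀ a, Q a → y a ≠ 0 → Q p) :
    ((cong p y A).toBlock P Q).rank ≤ (A.toBlock P Q).rank := by
  refine le_trans ?_ (rank_rowop A P Q p y hP)
  rw [← rank_toBlock_transpose, ← rank_toBlock_transpose (Matrix.of _)]
  refine le_trans (le_of_eq ?_) (rank_rowop _ Q P p y hQ)
  congr 2
  ext a b
  simp only [cong, transpose_apply, of_apply]
  ring

theorem rank_diag_le [Fintype m] (A : Matrix m m ℂ) (P Q : m → Prop) [DecidablePred P]
    [DecidablePred Q] (t : m → ℂ) :
    ((Matrix.of fun a b => t a * t b * A a b).toBlock P Q).rank ≤ (A.toBlock P Q).rank := by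
  refine le_trans ?_ (rank_rowscale A P Q t)
  rw [← rank_toBlock_transpose, ← rank_toBlock_transpose (Matrix.of fun a b => t a * A a b)]
  refine le_trans (le_of_eq ?_) (rank_rowscale _ Q P t)
  congr 2
  ext a b
  simp only [transpose_apply, of_apply]
  ring

theorem rank_eq_succ [Finite m] [Finite m'] [Fintype n] [Fintype n'] (M : Matrix m n ℂ) (p : m)
    (q : n) (e : m' → m) (e' : n' → n) (he : ∀ a, a = p ∨ ∃ a', e a' = a)
    (he' : ∀ b, b = q ∨ ∃ b', e' b' = b) (h1 : M p q = 1) (hrow : ∀ b', M p (e' b') = 0)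
    (hcol : ∀ a', M (e a') q = 0) : M.rank = (M.submatrix e e').rank + 1 := by
  let W : Submodule ℂ (n → ℂ) := span ℂ (Set.range fun a' => M.row (e a'))
  have hW : ∀ v ∈ W, v q = 0 := by
    have : W ≤ LinearMap.ker (LinearMap.proj q : (n → ℂ) →ₗ[ℂ] ℂ) := by
      rw [span_le]
      rintro _ ⟨a', rfl⟩
      exact hcol a'
    exact fun v hv => this hv
  have h2 : span ℂ (Set.range M.row) = W ⊔ span ℂ {M.row p} := by
    apply le_antisymm
    · rw [span_le]
      rintro _ ⟨a, rfl⟩
      rcases he a with rfl | ⟨a', rfl⟩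
      · exact mem_sup_right (subset_span rfl)
      · exact mem_sup_left (subset_span ⟨a', rfl⟩)
    · refine sup_le (span_mono ?_) (span_mono ?_)
      · rintro _ ⟨a', rfl⟩; exact ⟨_, rfl⟩
      · rintro _ rfl; exact ⟨_, rfl⟩
  have h3 : M.row p ∉ W := fun h => by
    have := hW _ h
    rw [Matrix.row_apply, h1] at this
    exact one_ne_zero this
  rw [rank_eq_finrank_span_row, rank_eq_finrank_span_row, h2, finrank_sup_span_singleton h3,
    ← finrank_map_of_injOn (LinearMap.funLeft ℂ ℂ e') W, map_span, ← Set.range_comp]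
  · rfl
  · intro v hv h0
    funext b
    rcases he' b with rfl | ⟨b', rfl⟩
    · exact hW v hv
    · exact congrFun h0 b'

theorem card_le_rank [Fintype n] {κ : Type*} [Fintype κ] [DecidableEq κ] (M : Matrix m n ℂ)
    (r : κ → m) (c : κ → n) (h : ∀ i j, M (r i) (c j) = if i = j then 1 else 0) :
    Fintype.card κ ≤ M.rank := by
  have : M.submatrix r c = 1 := by
    ext i j
    rw [submatrix_apply, h, one_apply]
  rw [← rank_one (R := ℂ), ← this]
  exact rank_submatrix_le _ _ _

theorem schur_of_rank_le [Fintype n] {κ : Type*} [Fintype κ] [DecidableEq κ] (M : Matrix m n ℂ)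
    (r : κ → m) (c : κ → n) (h : ∀ i j, M (r i) (c j) = if i = j then 1 else 0)
    (hr : M.rank ≤ Fintype.card κ) (a : m) (b : n) : M a b = ∑ k, M a (c k) * M (r k) b := by
  by_contra hne
  have h1 : M.submatrix (Sum.elim (fun _ : Unit => a) r) (Sum.elim (fun _ : Unit => b) c) =
      fromBlocks (Matrix.of fun _ _ => M a b) (Matrix.of fun _ k => M a (c k))
        (Matrix.of fun k _ => M (r k) b) 1 := by
    ext (i | i) (j | j) <;> simp [h, one_apply]
  have h2 : (M.submatrix (Sum.elim (fun _ : Unit => a) r)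
      (Sum.elim (fun _ : Unit => b) c)).det ≠ 0 := by
    rw [h1, det_fromBlocks_one₂₂, det_unique]
    simpa [mul_apply, sub_eq_zero] using hne
  have h3 := rank_of_det_ne_zero h2
  have h4 := rank_submatrix_le M (Sum.elim (fun _ : Unit => a) r) (Sum.elim (fun _ : Unit => b) c)
  rw [h3, Fintype.card_sum, Fintype.card_unit] at h4
  omega

theorem rank_toBlock_le_of_sum [Fintype n] (M : Matrix m n ℂ) (P : m → Prop) (Q : n → Prop)
    [DecidablePred Q] {s : ℕ} (β : Fin s → m → ℂ) (γ : Fin s → n → ℂ)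
    (h : ∀ a b, P a → Q b → M a b = ∑ k, β k a * γ k b) : (M.toBlock P Q).rank ≤ s := by
  have : M.toBlock P Q = (Matrix.of fun (a : {a // P a}) k => β k a.1) *
      (Matrix.of fun k (b : {b // Q b}) => γ k b.1) := by
    ext a b
    simp [mul_apply, h a.1 b.1 a.2 b.2]
  rw [this]
  exact (rank_mul_le_left _ _).trans ((rank_le_card_width _).trans (by simp))

theorem rank_toBlock_le_add [Fintype m] [Fintype n] (M : Matrix m n ℂ) (P P0 : m → Prop)
    (Q : n → Prop) [DecidablePred P] [DecidablePred P0] [DecidablePred Q] :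
    (M.toBlock P Q).rank ≤
      (M.toBlock P0 Q).rank + (Finset.univ.filter fun a => P a ∧ ¬ P0 a).card := by
  have h1 := rank_le_card_height (M.toBlock (fun a => P a ∧ ¬ P0 a) Q)
  rw [Fintype.card_subtype] at h1
  refine le_trans ?_ (Nat.add_le_add_left h1 _)
  rw [rank_eq_finrank_span_row, rank_eq_finrank_span_row, rank_eq_finrank_span_row]
  refine le_trans (Submodule.finrank_mono ?_) (finrank_add_le_finrank_add_finrank _ _)
  rw [span_le]
  rintro _ ⟨a, rfl⟩
  by_cases h : P0 a.1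
  · exact mem_sup_left (subset_span ⟨⟨a.1, h⟩, rfl⟩)
  · exact mem_sup_right (subset_span ⟨⟨a.1, a.2, h⟩, rfl⟩)

end General

section Corner

variable {N : ℕ}

theorem permMatrix_apply (z : Equiv.Perm (Fin N)) (a b : Fin N) :
    z.permMatrix ℂ a b = if z a = b then 1 else 0 := by
  simp [Equiv.Perm.permMatrix, PEquiv.toMatrix_apply, eq_comm]

theorem cornerRank_perm (z : Equiv.Perm (Fin N)) (i j : Fin N) :
    cornerRank (z.permMatrix ℂ) i j = (Finset.univ.filter fun a => a ≤ i ∧ z a ≤ j).card := by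
  apply le_antisymm
  · have h := rank_toBlock_le_add (z.permMatrix ℂ) (fun a => a ≤ i) (fun a => ¬ z a ≤ j)
      (fun b => b ≤ j)
    have h0 : (z.permMatrix ℂ).toBlock (fun a => ¬ z a ≤ j) (fun b => b ≤ j) = 0 := by
      ext a b
      rw [toBlock_apply, permMatrix_apply, if_neg, Matrix.zero_apply]
      intro h
      exact a.2 (h ▸ b.2)
    rw [h0, rank_zero, zero_add] at h
    simpa [cornerRank] using h
  · rw [← Fintype.card_subtype]
    refine card_le_rank _ (fun a => ⟨a.1, a.2.1⟩) (fun a => ⟨z a.1, a.2.2⟩) ?_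
    intro a b
    simp [Subtype.ext_iff]

theorem cornerRank_le_left (A : Matrix (Fin N) (Fin N) ℂ) (i j : Fin N) :
    cornerRank A i j ≤ (Finset.univ.filter fun a => a ≤ i).card := by
  rw [← Fintype.card_subtype]
  exact rank_le_card_height _

theorem cornerRank_le_right (A : Matrix (Fin N) (Fin N) ℂ) (i j : Fin N) :
    cornerRank A i j ≤ (Finset.univ.filter fun a => a ≤ j).card := by
  rw [← Fintype.card_subtype]
  exact rank_le_card_width _

theorem cornerRank_trivial (z : Equiv.Perm (Fin N)) (A : Matrix (Fin N) (Fin N) ℂ) (i j : Fin N)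
    (h : ∀ a, a ≤ i → a ≤ j → z a = a) : cornerRank A i j ≤ cornerRank (z.permMatrix ℂ) i j := by
  rw [cornerRank_perm]
  rcases le_total i j with hij | hij
  · refine (cornerRank_le_left A i j).trans (Finset.card_le_card fun a ha => ?_)
    simp only [Finset.mem_filter, Finset.mem_univ, true_and] at ha ⊢
    exact ⟨ha, by rw [h a ha (ha.trans hij)]; exact ha.trans hij⟩
  · refine (cornerRank_le_right A i j).trans (Finset.card_le_card fun a ha => ?_)
    simp only [Finset.mem_filter, Finset.mem_univ, true_and] at ha ⊢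
    exact ⟨ha.trans hij, by rw [h a (ha.trans hij) ha]; exact ha⟩

theorem cornerRank_le_add (A : Matrix (Fin N) (Fin N) ℂ) (i j i0 j0 : Fin N) :
    cornerRank A i j ≤ cornerRank A i0 j0 + (Finset.univ.filter fun a => a ≤ i ∧ ¬ a ≤ i0).card +
      (Finset.univ.filter fun a => a ≤ j ∧ ¬ a ≤ j0).card := by
  have h1 := rank_toBlock_le_add A (fun a => a ≤ i) (fun a => a ≤ i0) (fun b => b ≤ j)
  have h2 := rank_toBlock_le_add Aᵀ (fun a => a ≤ j) (fun a => a ≤ j0) (fun b => b ≤ i0)
  rw [rank_toBlock_transpose, rank_toBlock_transpose] at h2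
  simp only [cornerRank]
  omega

theorem cong_isSymm {ι : Type*} {A : Matrix ι ι ℂ} (hA : A.IsSymm) (p : ι) (y : ι → ℂ) :
    (cong p y A).IsSymm := by
  ext a b
  simp only [cong, transpose_apply, of_apply]
  rw [hA.apply a b, hA.apply p b, hA.apply a p]
  ring

theorem diag_mem_MX {z : Equiv.Perm (Fin N)} {A : Matrix (Fin N) (Fin N) ℂ} (hA : A ∈ MX z)
    (t : Fin N → ℂ) : (Matrix.of fun a b => t a * t b * A a b) ∈ MX z := by
  refine ⟨?_, fun i j => (rank_diag_le A _ _ t).trans (hA.2 i j)⟩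
  ext a b
  simp only [transpose_apply, of_apply]
  rw [hA.1.apply a b]
  ring

theorem scale_mem_MX {z : Equiv.Perm (Fin N)} {A : Matrix (Fin N) (Fin N) ℂ} (hA : A ∈ MX z)
    (p : Fin N) (c : ℂ) : scale p c A ∈ MX z :=
  diag_mem_MX hA fun a => if a = p then c else 1

theorem cong_mem_MX {z : Equiv.Perm (Fin N)} {A : Matrix (Fin N) (Fin N) ℂ} (hA : A ∈ MX z)
    (p : Fin N) (y : Fin N → ℂ) (hy : ∀ a, y a ≠ 0 → p ≤ a) : cong p y A ∈ MX z :=
  ⟨cong_isSymm hA.1 p y, fun i j => (rank_cong_le A (fun a => a ≤ i) (fun a => a ≤ j) p y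
    (fun a ha h => (hy a h).trans ha) (fun a ha h => (hy a h).trans ha)).trans (hA.2 i j)⟩

theorem cong_mem_MX' {z : Equiv.Perm (Fin N)} {A : Matrix (Fin N) (Fin N) ℂ} (hA : A ∈ MX z)
    (p : Fin N) (hz : ∀ a ≤ p, z a = a) (y : Fin N → ℂ) : cong p y A ∈ MX z := by
  refine ⟨cong_isSymm hA.1 p y, fun i j => ?_⟩
  by_cases h : p ≤ i ∧ p ≤ j
  · exact (rank_cong_le A _ _ p y (fun _ _ _ => h.1) (fun _ _ _ => h.2)).trans (hA.2 i j)
  · refine cornerRank_trivial z _ i j fun a hi hj => hz a ?_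
    by_contra hlt
    exact h ⟨(not_le.mp hlt).le.trans hi, (not_le.mp hlt).le.trans hj⟩

theorem zero_mem_MX (z : Equiv.Perm (Fin N)) : (0 : Matrix (Fin N) (Fin N) ℂ) ∈ MX z := by
  refine ⟨isSymm_zero, fun i j => ?_⟩
  have : (0 : Matrix (Fin N) (Fin N) ℂ).toBlock (fun a => a ≤ i) (fun b => b ≤ j) = 0 := rfl
  rw [cornerRank, this, rank_zero]
  exact Nat.zero_le _

end Corner

section Step

variable {N N' : ℕ}

/-- `z'` arises from `z` by inserting a fixed point `p` that has only fixed points below it. -/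
structure Ins (z : Equiv.Perm (Fin N)) (z' : Equiv.Perm (Fin N')) (p : Fin N')
    (e : Fin N → Fin N') : Prop where
  mono : StrictMono e
  ne : ∀ a, e a ≠ p
  cover : ∀ b, b = p ∨ ∃ a, e a = b
  fix : ∀ b ≤ p, z' b = b
  comm : ∀ a, z' (e a) = e (z a)

theorem cornerRank_step {p : Fin N'} {e : Fin N → Fin N'} (hm : StrictMono e)
    (hc : ∀ b, b = p ∨ ∃ a, e a = b) (A : Matrix (Fin N') (Fin N') ℂ) (h1 : A p p = 1)
    (hrow : ∀ a, A p (e a) = 0) (hcol : ∀ a, A (e a) p = 0) (i j : Fin N) (hi : p ≤ e i)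
    (hj : p ≤ e j) : cornerRank A (e i) (e j) = cornerRank (A.submatrix e e) i j + 1 := by
  have hcov : ∀ (i : Fin N) (hi : p ≤ e i) (b : {b // b ≤ e i}), b = ⟨p, hi⟩ ∨
      ∃ a : {a // a ≤ i}, (⟨e a.1, hm.monotone a.2⟩ : {b // b ≤ e i}) = b := by
    intro i hi b
    rcases hc b.1 with h | ⟨a, ha⟩
    · left; exact Subtype.ext h
    · right
      exact ⟨⟨a, hm.le_iff_le.mp (ha ▸ b.2)⟩, Subtype.ext ha⟩
  exact rank_eq_succ (A.toBlock (fun a => a ≤ e i) (fun b => b ≤ e j)) ⟨p, hi⟩ ⟨p, hj⟩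
    (fun a : {a // a ≤ i} => ⟨e a.1, hm.monotone a.2⟩)
    (fun a : {a // a ≤ j} => ⟨e a.1, hm.monotone a.2⟩) (hcov i hi) (hcov j hj) h1
    (fun b => hrow b.1) (fun a => hcol a.1)

theorem Ins.mem_iff {z : Equiv.Perm (Fin N)} {z' : Equiv.Perm (Fin N')} {p : Fin N'}
    {e : Fin N → Fin N'} (h : Ins z z' p e) {A : Matrix (Fin N') (Fin N') ℂ} (hA : A.IsSymm)
    (h1 : A p p = 1) (hrow : ∀ a, A p (e a) = 0) : A ∈ MX z' ↔ A.submatrix e e ∈ MX z := by
  have hcol : ∀ a, A (e a) p = 0 := fun a => by rw [hA.apply p (e a)]; exact hrow a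
  have hperm : (z'.permMatrix ℂ).submatrix e e = z.permMatrix ℂ := by
    ext a b
    simp [h.comm, h.mono.injective.eq_iff]
  have key : ∀ i j, p ≤ e i → p ≤ e j →
      (cornerRank A (e i) (e j) ≤ cornerRank (z'.permMatrix ℂ) (e i) (e j) ↔
        cornerRank (A.submatrix e e) i j ≤ cornerRank (z.permMatrix ℂ) i j) := by
    intro i j hi hj
    rw [cornerRank_step h.mono h.cover A h1 hrow hcol i j hi hj,
      cornerRank_step h.mono h.cover (z'.permMatrix ℂ) (by simp [h.fix p le_rfl])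
        (fun a => by simp [h.fix p le_rfl, (h.ne a).symm])
        (fun a => by simp [h.comm, h.ne]) i j hi hj, hperm]
    exact Nat.add_le_add_iff_right
  constructor
  · intro hX
    refine ⟨hA.submatrix e, fun i j => ?_⟩
    by_cases hp : p ≤ e i ∧ p ≤ e j
    · exact (key i j hp.1 hp.2).mp (hX.2 _ _)
    · refine cornerRank_trivial z _ i j fun a hi hj => h.mono.injective ?_
      rw [← h.comm]
      apply h.fix
      by_contra hlt
      exact hp ⟨(not_le.mp hlt).le.trans (h.mono.monotone hi),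
        (not_le.mp hlt).le.trans (h.mono.monotone hj)⟩
  · intro hX
    refine ⟨hA, fun i j => ?_⟩
    by_cases hp : p < i ∧ p < j
    · obtain ⟨i', rfl⟩ := (h.cover i).resolve_left hp.1.ne'
      obtain ⟨j', rfl⟩ := (h.cover j).resolve_left hp.2.ne'
      exact (key i' j' hp.1.le hp.2.le).mpr (hX.2 _ _)
    · refine cornerRank_trivial z' _ i j fun a hi hj => h.fix a ?_
      by_contra hlt
      exact hp ⟨(not_le.mp hlt).trans_le hi, (not_le.mp hlt).trans_le hj⟩

end Step

end Pool.Agent.MP_ef387b_co
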