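import Pool.Agent.MP_ef387b_co.Hilb

/-!
The Hilbert-Serre theorem for multigraded quotients of polynomial rings, with the order of
vanishing of the numerator bounded below by the codimension.
-/

namespace Pool.Agent.MP_ef387b_co

open MvPolynomial

variable {τ σ : Type*}

/-- Homogeneous ideals. -/
def Homog (w : σ → τ →₀ ℕ) (I : Ideal (MvPolynomial σ ℂ)) : Prop :=
  ∀ P ∈ I, ∀ ν, weightedHomogeneousComponent w ν P ∈ I

/-- The substitution `a = 1 + β x`. -/
noncomputable def sub1 (τ : Type*) : MvPolynomial τ ℤ →ₐ[ℤ] MvPolynomial τ (Polynomial ℤ) :=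
  aeval (fun i => (1 + C Polynomial.X * X i : MvPolynomial τ (Polynomial ℤ)))

theorem dvd_one_sub_sub1 (v : τ →₀ ℕ) :
    (C Polynomial.X : MvPolynomial τ (Polynomial ℤ)) ∣ 1 - sub1 τ (monomial v 1) := by
  induction v using Finsupp.induction_linear with
  | zero => simp
  | add a b ha hb =>
    have : (monomial (a + b) (1 : ℤ) : MvPolynomial τ ℤ) = monomial a 1 * monomial b 1 := by
      rw [monomial_mul, one_mul]
    rw [this, map_mul]
    have h2 : 1 - sub1 τ (monomial a 1) * sub1 τ (monomial b 1) =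
      (1 - sub1 τ (monomial a 1)) + sub1 τ (monomial a 1) * (1 - sub1 τ (monomial b 1)) := by ring
    rw [h2]
    exact dvd_add ha (hb.mul_left _)
  | single i k =>
    rw [← X_pow_eq_monomial, map_pow]
    have h1 : sub1 τ (X i) = 1 + C Polynomial.X * X i := by simp [sub1]
    rw [h1]
    have := sub_dvd_pow_sub_pow (1 : MvPolynomial τ (Polynomial ℤ)) (1 + C Polynomial.X * X i) k
    rw [one_pow] at this
    refine Dvd.dvd.trans ⟨-X i, by ring⟩ this

theorem comp_X_mul (w : σ → τ →₀ ℕ) (s : σ) (μ : τ →₀ ℕ) (b : MvPolynomial σ ℂ) :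
    weightedHomogeneousComponent w (μ + w s) (X s * b) =
      X s * weightedHomogeneousComponent w μ b := by
  classical
  ext m
  rw [coeff_weightedHomogeneousComponent, coeff_X_mul', coeff_X_mul',
    coeff_weightedHomogeneousComponent]
  by_cases hm : s ∈ m.support
  · have := Finsupp.weight_sub_single_add (w := w) (Finsupp.mem_support_iff.mp hm)
    simp only [if_pos hm, ← this, add_left_inj]
  · simp [hm]

theorem comp_X_mul_eq_zero (w : σ → τ →₀ ℕ) (s : σ) {ν : τ →₀ ℕ} (h : ¬ w s ≤ ν)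
    (b : MvPolynomial σ ℂ) : weightedHomogeneousComponent w ν (X s * b) = 0 := by
  classical
  ext m
  rw [coeff_weightedHomogeneousComponent, coeff_X_mul']
  split_ifs with h1 h2
  · exact absurd (h1 ▸ Finsupp.le_weight_of_ne_zero' w (Finsupp.mem_support_iff.mp h2)) h
  · simp
  · simp

theorem wb_cancel {a : WithBot ℕ∞} {n : ℕ} (h : a + 1 ≤ ((n + 1 : ℕ) : WithBot ℕ∞)) :
    a ≤ (n : WithBot ℕ∞) := by
  rw [Nat.cast_add, Nat.cast_one] at h
  exact ENat.WithBot.add_le_add_one_right_iff.mp h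

theorem coe_sub' (P Q : MvPolynomial τ ℤ) :
    ((P - Q : MvPolynomial τ ℤ) : MvPowerSeries τ ℤ) = P - Q :=
  map_sub (coeToMvPowerSeries.ringHom : MvPolynomial τ ℤ →+* MvPowerSeries τ ℤ) P Q

theorem coe_prod' {ι : Type*} (S : Finset ι) (P : ι → MvPolynomial τ ℤ) :
    ((∏ i ∈ S, P i : MvPolynomial τ ℤ) : MvPowerSeries τ ℤ) =
      ∏ i ∈ S, (P i : MvPowerSeries τ ℤ) :=
  map_prod (coeToMvPowerSeries.ringHom : MvPolynomial τ ℤ →+* MvPowerSeries τ ℤ) P S

theorem coe_one_sub_monomial (v : τ →₀ ℕ) :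
    ((1 - monomial v 1 : MvPolynomial τ ℤ) : MvPowerSeries τ ℤ) =
      1 - MvPowerSeries.monomial v (1 : ℤ) := by
  rw [coe_sub', coe_one, coe_monomial]

theorem serre_aux [Finite σ] {w : σ → τ →₀ ℕ} (hw : ∀ s, w s ≠ 0) (S : Finset σ) :
    ∀ I : Ideal (MvPolynomial σ ℂ), Homog w I → (∀ s ∉ S, X s ∈ I) →
      ∃ K : MvPolynomial τ ℤ,
        (K : MvPowerSeries τ ℤ) = hs w (fun s => Ideal.Quotient.mkₐ ℂ I (X s)) *
          ∏ s ∈ S, (1 - MvPowerSeries.monomial (w s) (1 : ℤ)) ∧
        ∀ c : ℕ, (c : WithBot ℕ∞) + ringKrullDim (MvPolynomial σ ℂ ⧸ I) ≤ S.card →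
          (C (Polynomial.X ^ c) : MvPolynomial τ (Polynomial ℤ)) ∣ sub1 τ K := by
  classical
  induction S using Finset.induction_on with
  | empty =>
    intro I _ hI
    by_cases htop : I = ⊤
    · refine ⟨0, ?_, fun c _ => by simp⟩
      subst htop
      ext μ
      rw [Finset.prod_empty, mul_one, coeff_hs]
      have : gp w (fun s => Ideal.Quotient.mkₐ ℂ (⊤ : Ideal (MvPolynomial σ ℂ)) (X s)) μ = ⊥ :=
        Subsingleton.elim _ _
      rw [this]
      simp
    · have := Ideal.Quotient.nontrivial_iff.mpr htop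
      refine ⟨1, ?_, fun c hc => ?_⟩
      · rw [Finset.prod_empty, mul_one, coe_one,
          ← hs_empty (σ := Empty) (fun s => s.elim) (fun s => s.elim : _ → MvPolynomial σ ℂ ⧸ I)]
        apply hs_eq_of_gen
        · intro s; exact s.elim
        · intro s
          have : Ideal.Quotient.mkₐ ℂ I (X s) = 0 :=
            Ideal.Quotient.eq_zero_iff_mem.mpr (hI s (Finset.notMem_empty s))
          rw [this]
          exact Submodule.zero_mem _
      · have h0 := ringKrullDim_nonneg_of_nontrivial (R := MvPolynomial σ ℂ ⧸ I)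
        have h1 : (c : WithBot ℕ∞) + 0 ≤ ((∅ : Finset σ).card : WithBot ℕ∞) :=
          le_trans (by gcongr) hc
        have h2 : c ≤ 0 := by
          rw [add_zero, Finset.card_empty] at h1
          exact_mod_cast h1
        have : c = 0 := by omega
        subst this
        simp
  | insert s S hs ih =>
    intro I
    induction I using IsNoetherian.induction with
    | _ I ih2 =>
    intro hI hS
    let I1 : Ideal (MvPolynomial σ ℂ) := I ⊔ Ideal.span {X s}
    let I2 : Ideal (MvPolynomial σ ℂ) :=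
      Submodule.comap (LinearMap.mulLeft (MvPolynomial σ ℂ) (X s)) I
    have hI2 : ∀ P, P ∈ I2 ↔ X s * P ∈ I := fun P => Iff.rfl
    have hI1 : ∀ P, P ∈ I1 ↔ ∃ a ∈ I, ∃ b, P = a + X s * b := by
      intro P
      simp only [I1, Submodule.mem_sup, Ideal.mem_span_singleton']
      constructor
      · rintro ⟨a, ha, _, ⟨b, rfl⟩, rfl⟩
        exact ⟨a, ha, b, by ring⟩
      · rintro ⟨a, ha, b, rfl⟩
        exact ⟨a, ha, _, ⟨b, rfl⟩, by ring⟩
    have hle1 : I ≤ I1 := le_sup_left
    have hle2 : I ≤ I2 := fun P hP => (hI2 P).mpr (Ideal.mul_mem_left I _ hP)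
    have hx1 : X s ∈ I1 := (hI1 _).mpr ⟨0, I.zero_mem, 1, by ring⟩
    have hom1 : Homog w I1 := by
      intro P hP ν
      obtain ⟨a, ha, b, rfl⟩ := (hI1 P).mp hP
      rw [map_add]
      refine I1.add_mem (hle1 (hI a ha ν)) ?_
      by_cases hv : w s ≤ ν
      · obtain ⟨μ, rfl⟩ := exists_add_of_le hv
        rw [add_comm (w s) μ, comp_X_mul]
        exact I1.mul_mem_right _ hx1
      · rw [comp_X_mul_eq_zero w s hv]
        exact I1.zero_mem
    have hom2 : Homog w I2 := by
      intro P hP ν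
      rw [hI2, ← comp_X_mul]
      exact hI _ ((hI2 P).mp hP) _
    have hex := hs_exact hw (fun t => Ideal.Quotient.mkₐ ℂ I (X t)) (Ideal.Quotient.mkₐ ℂ I (X s))
      (w s) (gen_mem_gp w _ s) (Ideal.Quotient.factorₐ ℂ hle1) (Ideal.Quotient.factorₐ ℂ hle2)
      (Ideal.Quotient.eq_zero_iff_mem.mpr hx1) ?_ ?_
    rotate_left
    · intro ν g hg h0
      obtain ⟨P, hP, rfl⟩ := mem_gp.mp hg
      have hae : ∀ Q : MvPolynomial σ ℂ,
          aeval (fun t => Ideal.Quotient.mkₐ ℂ I (X t)) Q = Ideal.Quotient.mkₐ ℂ I Q := by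
        intro Q
        have : aeval (fun t => Ideal.Quotient.mkₐ ℂ I (X t)) = Ideal.Quotient.mkₐ ℂ I := by
          ext t; simp
        rw [this]
      rw [hae] at h0 ⊢
      have hP1 : P ∈ I1 := Ideal.Quotient.eq_zero_iff_mem.mp h0
      obtain ⟨a, ha, b, hab⟩ := (hI1 P).mp hP1
      have hc : P = weightedHomogeneousComponent w ν a +
          weightedHomogeneousComponent w ν (X s * b) := by
        rw [← map_add, ← hab, hP.weightedHomogeneousComponent_same]
      have ha0 : Ideal.Quotient.mkₐ ℂ I (weightedHomogeneousComponent w ν a) = 0 :=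
        Ideal.Quotient.eq_zero_iff_mem.mpr (hI a ha ν)
      by_cases hv : w s ≤ ν
      · obtain ⟨μ, rfl⟩ := exists_add_of_le hv
        right
        refine ⟨μ, Ideal.Quotient.mkₐ ℂ I (weightedHomogeneousComponent w μ b), add_comm _ _,
          mem_gp.mpr ⟨_, weightedHomogeneousComponent_isWeightedHomogeneous μ b, hae _⟩, ?_⟩
        rw [hc, map_add, ha0, zero_add, add_comm (w s) μ, comp_X_mul, map_mul]
      · left
        rw [hc, map_add, ha0, zero_add, comp_X_mul_eq_zero w s hv, map_zero]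
    · intro μ g _
      obtain ⟨P, rfl⟩ := Ideal.Quotient.mk_surjective g
      have h1 : Ideal.Quotient.mkₐ ℂ I (X s) * Ideal.Quotient.mk I P =
        Ideal.Quotient.mk I (X s * P) := rfl
      have h2 : Ideal.Quotient.factorₐ ℂ hle2 (Ideal.Quotient.mk I P) =
        Ideal.Quotient.mk I2 P := rfl
      rw [h1, h2, Ideal.Quotient.eq_zero_iff_mem, Ideal.Quotient.eq_zero_iff_mem, hI2]
    have he1 : (fun t => Ideal.Quotient.factorₐ ℂ hle1 (Ideal.Quotient.mkₐ ℂ I (X t))) =
      fun t => Ideal.Quotient.mkₐ ℂ I1 (X t) := rfl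
    have he2 : (fun t => Ideal.Quotient.factorₐ ℂ hle2 (Ideal.Quotient.mkₐ ℂ I (X t))) =
      fun t => Ideal.Quotient.mkₐ ℂ I2 (X t) := rfl
    rw [he1, he2] at hex
    obtain ⟨K1, hK1, hd1⟩ := ih I1 hom1 (by
      intro t ht
      by_cases hts : t = s
      · rw [hts]; exact hx1
      · exact hle1 (hS t (by simp [hts, ht])))
    have hdim1 : ringKrullDim (MvPolynomial σ ℂ ⧸ I1) ≤ ringKrullDim (MvPolynomial σ ℂ ⧸ I) :=
      ringKrullDim_le_of_surjective (Ideal.Quotient.factor hle1)
        (Ideal.Quotient.factor_surjective hle1)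
    have hdim2 : ringKrullDim (MvPolynomial σ ℂ ⧸ I2) ≤ ringKrullDim (MvPolynomial σ ℂ ⧸ I) :=
      ringKrullDim_le_of_surjective (Ideal.Quotient.factor hle2)
        (Ideal.Quotient.factor_surjective hle2)
    rw [Finset.card_insert_of_notMem hs, Finset.prod_insert hs]
    by_cases heq : I2 = I
    · refine ⟨K1, ?_, fun c hc => hd1 c ?_⟩
      · rw [heq] at hex
        rw [hK1, ← mul_assoc]
        congr 1
        rw [mul_sub, mul_one, mul_comm _ (MvPowerSeries.monomial (w s) (1 : ℤ))]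
        exact (sub_eq_of_eq_add hex).symm
      · have hnz : Ideal.Quotient.mk I (X s) ∈ nonZeroDivisors (MvPolynomial σ ℂ ⧸ I) := by
          rw [mem_nonZeroDivisors_iff_right]
          intro g hg
          obtain ⟨P, rfl⟩ := Ideal.Quotient.mk_surjective g
          rw [← map_mul, Ideal.Quotient.eq_zero_iff_mem, mul_comm, ← hI2, heq] at hg
          exact Ideal.Quotient.eq_zero_iff_mem.mpr hg
        have := ringKrullDim_succ_le_of_surjective (Ideal.Quotient.factor hle1)
          (Ideal.Quotient.factor_surjective hle1) hnz (Ideal.Quotient.eq_zero_iff_mem.mpr hx1)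
        apply wb_cancel
        rw [add_assoc]
        exact le_trans (by gcongr) hc
    · have hlt : I < I2 := lt_of_le_of_ne hle2 (Ne.symm heq)
      obtain ⟨K2, hK2, hd2⟩ := ih2 I2 hlt hom2 (fun t ht => hle2 (hS t ht))
      rw [Finset.prod_insert hs] at hK2
      rw [Finset.card_insert_of_notMem hs] at hd2
      refine ⟨(1 - monomial (w s) 1) * K1 + monomial (w s) 1 * K2, ?_, fun c hc => ?_⟩
      · rw [hex]
        rw [coe_add, coe_mul, coe_mul, hK1, hK2, coe_one_sub_monomial, coe_monomial]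
        ring
      · rw [map_add, map_mul, map_mul]
        refine dvd_add ?_ ((hd2 c (le_trans (by gcongr) hc)).mul_left _)
        rcases c with _ | c
        · simp
        · rw [pow_succ', map_mul, map_sub, map_one]
          refine mul_dvd_mul (dvd_one_sub_sub1 _) (hd1 c ?_)
          apply wb_cancel
          refine le_trans ?_ hc
          push_cast
          rw [add_right_comm]
          gcongr

/-- Hilbert-Serre. -/
theorem serre [Fintype σ] {w : σ → τ →₀ ℕ} (hw : ∀ s, w s ≠ 0) (I : Ideal (MvPolynomial σ ℂ))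
    (hI : Homog w I) :
    ∃ K : MvPolynomial τ ℤ,
      (K : MvPowerSeries τ ℤ) = hs w (fun s => Ideal.Quotient.mkₐ ℂ I (X s)) *
        ∏ s, (1 - MvPowerSeries.monomial (w s) (1 : ℤ)) ∧
      ∀ c : ℕ, (c : WithBot ℕ∞) + ringKrullDim (MvPolynomial σ ℂ ⧸ I) ≤ Fintype.card σ →
        (C (Polynomial.X ^ c) : MvPolynomial τ (Polynomial ℤ)) ∣ sub1 τ K :=
  serre_aux hw Finset.univ I hI fun s hs => absurd (Finset.mem_univ s) hs

end Pool.Agent.MP_ef387b_co
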