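import Pool.Agent.MP_ef387b_co.Serre

/-!
Specialising one torus variable to `1` corresponds to cutting by a hyperplane `a = 1`.
-/

namespace Pool.Agent.MP_ef387b_co

open MvPolynomial Filter

section Lim

variable {τ : Type*} [DecidableEq τ]

/-- Setting the variable `p` equal to `1`. -/
noncomputable def sp (p : τ) : MvPolynomial τ ℤ →ₐ[ℤ] MvPolynomial τ ℤ :=
  aeval (fun i => if i = p then 1 else X i)

theorem sp_monomial (p : τ) (ν : τ →₀ ℕ) (c : ℤ) :
    sp p (monomial ν c) = monomial (ν.erase p) c := by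
  have h : ∀ ν : τ →₀ ℕ, sp p (monomial ν 1) = monomial (ν.erase p) 1 := by
    intro ν
    induction ν using Finsupp.induction_linear with
    | zero => simp
    | add a b ha hb =>
      rw [Finsupp.erase_add, ← one_mul (1 : ℤ), ← monomial_mul, ← monomial_mul, map_mul, ha, hb]
    | single i k =>
      rw [← X_pow_eq_monomial, map_pow]
      by_cases hi : i = p
      · subst hi; simp [sp]
      · rw [Finsupp.erase_single_ne (Ne.symm hi), ← X_pow_eq_monomial]
        simp [sp, hi]
  have h2 : ∀ ν : τ →₀ ℕ, (monomial ν c : MvPolynomial τ ℤ) = c • monomial ν 1 := by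
    intro ν; rw [smul_monomial, smul_eq_mul, mul_one]
  rw [h2, map_smul, h, h2 (ν.erase p)]

/-- `F'` is the limit of the coefficients of `F` in the direction `p`. -/
def Lim (p : τ) (F F' : MvPowerSeries τ ℤ) : Prop :=
  ∀ μ : τ →₀ ℕ, ∀ᶠ k in atTop, MvPowerSeries.coeff μ F' =
    if μ p = 0 then MvPowerSeries.coeff (μ + Finsupp.single p k) F else 0

omit [DecidableEq τ] in
theorem Lim.unique {p : τ} {F F1 F2 : MvPowerSeries τ ℤ} (h1 : Lim p F F1) (h2 : Lim p F F2) :
    F1 = F2 := by
  ext μ
  obtain ⟨k, hk1, hk2⟩ := ((h1 μ).and (h2 μ)).exists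
  rw [hk1, hk2]

omit [DecidableEq τ] in
theorem Lim.add {p : τ} {F F' G G' : MvPowerSeries τ ℤ} (h1 : Lim p F F') (h2 : Lim p G G') :
    Lim p (F + G) (F' + G') := by
  intro μ
  filter_upwards [h1 μ, h2 μ] with k hk1 hk2
  rw [map_add, map_add, hk1, hk2]
  split_ifs <;> simp

theorem Lim.mul_monomial {p : τ} {F F' : MvPowerSeries τ ℤ} (h : Lim p F F') (ν : τ →₀ ℕ) (c : ℤ) :
    Lim p (F * MvPowerSeries.monomial ν c) (F' * MvPowerSeries.monomial (ν.erase p) c) := by
  intro μ
  obtain ⟨k0, hk0⟩ := eventually_atTop.mp (h (μ - ν.erase p))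
  filter_upwards [eventually_ge_atTop (k0 + ν p)] with k hk
  rw [MvPowerSeries.coeff_mul_monomial, MvPowerSeries.coeff_mul_monomial,
    hk0 (k - ν p) (by omega)]
  have e1 : (μ - ν.erase p) p = μ p := by simp
  rw [e1]
  by_cases hμ : μ p = 0
  · simp only [if_pos hμ]
    have e2 : ν.erase p ≤ μ ↔ ν ≤ μ + Finsupp.single p k := by
      simp only [Finsupp.le_def]
      refine forall_congr' fun i => ?_
      by_cases hi : i = p
      · subst hi; simp; omega
      · simp [Finsupp.erase_ne hi, Finsupp.single_eq_of_ne hi]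
    have e3 : μ - ν.erase p + Finsupp.single p (k - ν p) = μ + Finsupp.single p k - ν := by
      ext i
      by_cases hi : i = p
      · subst hi; simp [hμ]
      · simp [Finsupp.erase_ne hi, Finsupp.single_eq_of_ne hi]
    rw [e3]
    simp only [e2]
  · simp [hμ]

theorem Lim.mul_poly {p : τ} {F F' : MvPowerSeries τ ℤ} (h : Lim p F F') (D : MvPolynomial τ ℤ) :
    Lim p (F * D) (F' * (sp p D : MvPolynomial τ ℤ)) := by
  induction D using MvPolynomial.induction_on' with
  | monomial ν c => rw [sp_monomial, coe_monomial, coe_monomial]; exact h.mul_monomial ν c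
  | add P Q hP hQ => rw [map_add, coe_add, coe_add, mul_add, mul_add]; exact hP.add hQ

/-- The geometric series in the variable `p`. -/
noncomputable def geo (p : τ) : MvPowerSeries τ ℤ := fun μ => if μ.erase p = 0 then 1 else 0

theorem coeff_geo (p : τ) (μ : τ →₀ ℕ) :
    MvPowerSeries.coeff μ (geo p) = if μ.erase p = 0 then 1 else 0 := rfl

theorem lim_geo (p : τ) : Lim p (geo p) 1 := by
  intro μ
  refine Eventually.of_forall fun k => ?_
  rw [coeff_geo, MvPowerSeries.coeff_one]
  by_cases hμ : μ p = 0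
  · have : (μ + Finsupp.single p k).erase p = μ := by
      rw [Finsupp.erase_add, Finsupp.erase_single, add_zero,
        Finsupp.erase_of_notMem_support (by simpa using hμ)]
    rw [if_pos hμ, this]
  · rw [if_neg hμ, if_neg]
    rintro rfl
    exact hμ rfl

theorem geo_mul (p : τ) :
    geo p * (1 - MvPowerSeries.monomial (Finsupp.single p 1) (1 : ℤ)) = 1 := by
  ext μ
  rw [mul_sub, mul_one, map_sub, MvPowerSeries.coeff_mul_monomial, coeff_geo, coeff_geo,
    MvPowerSeries.coeff_one]
  by_cases hμ : μ p = 0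
  · rw [Finsupp.erase_of_notMem_support (by simpa using hμ), if_neg (show ¬ Finsupp.single p 1 ≤ μ by
      rw [Finsupp.single_le_iff]; omega), sub_zero]
  · have e1 : (μ - Finsupp.single p 1).erase p = μ.erase p := by
      ext i
      by_cases hi : i = p
      · subst hi; simp
      · simp [Finsupp.erase_ne hi, Finsupp.single_eq_of_ne hi]
    rw [if_pos (show Finsupp.single p 1 ≤ μ by rw [Finsupp.single_le_iff]; omega), e1, mul_one,
      sub_self, if_neg]
    rintro rfl
    exact hμ rfl

theorem sp_eq_of_lim {p : τ} {H H' : MvPowerSeries τ ℤ} {K D : MvPolynomial τ ℤ}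
    (hlim : Lim p (H * (1 + MvPowerSeries.monomial (Finsupp.single p 1) (1 : ℤ))) H')
    (hK : (K : MvPowerSeries τ ℤ) =
      H * (1 - MvPowerSeries.monomial (Finsupp.single p 2) (1 : ℤ)) * D) :
    ((sp p K : MvPolynomial τ ℤ) : MvPowerSeries τ ℤ) = H' * (sp p D : MvPolynomial τ ℤ) := by
  have h1 := (lim_geo p).mul_poly K
  have h2 := hlim.mul_poly D
  have h3 : geo p * K = H * (1 + MvPowerSeries.monomial (Finsupp.single p 1) (1 : ℤ)) * D := by
    have e : (MvPowerSeries.monomial (Finsupp.single p 2) (1 : ℤ) : MvPowerSeries τ ℤ) =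
        MvPowerSeries.monomial (Finsupp.single p 1) (1 : ℤ) *
          MvPowerSeries.monomial (Finsupp.single p 1) (1 : ℤ) := by
      rw [MvPowerSeries.monomial_mul_monomial, ← Finsupp.single_add, one_mul]
    rw [hK, e]
    have := geo_mul p
    linear_combination (H * (1 + MvPowerSeries.monomial (Finsupp.single p 1) (1 : ℤ)) * D) * this
  rw [h3, one_mul] at h1
  exact h1.unique h2

end Lim

theorem eventually_const_of_step (d : ℕ → ℕ) (B : ℕ) (h : ∀ k ≥ B, d (k + 1) ≤ d k) :
    ∃ k0, ∀ k ≥ k0, d k = d k0 := by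
  classical
  have hex : ∃ v, ∃ k ≥ B, d k = v := ⟨_, B, le_rfl, rfl⟩
  obtain ⟨k0, hk0, hv⟩ := Nat.find_spec hex
  have hanti : ∀ k, d (k0 + k) ≤ d k0 := by
    intro k
    induction k with
    | zero => exact le_rfl
    | succ k ih => exact le_trans (h (k0 + k) (by omega)) ih
  refine ⟨k0, fun k hk => le_antisymm ?_ ?_⟩
  · obtain ⟨j, rfl⟩ := Nat.exists_eq_add_of_le hk
    exact hanti j
  · rw [hv]
    exact Nat.find_min' hex ⟨k, by omega, rfl⟩

section Slice

variable {τ σ Z : Type*} [DecidableEq τ]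

omit [DecidableEq τ] in
theorem weight_erase (w : σ → τ →₀ ℕ) (p : τ) (α : σ →₀ ℕ) :
    Finsupp.weight (fun s => (w s).erase p) α = (Finsupp.weight w α).erase p := by
  induction α using Finsupp.induction_linear with
  | zero => simp
  | add a b ha hb => rw [map_add, map_add, ha, hb, Finsupp.erase_add]
  | single s k =>
    rw [Finsupp.weight_single, Finsupp.weight_single]
    exact ((Finsupp.eraseAddHom p).map_nsmul k (w s)).symm

omit [DecidableEq τ] in
theorem gp_scale {w : σ → τ →₀ ℕ} {f : σ → Z → ℂ} (p : τ) {x x' : Z} {c : ℂ}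
    (h : ∀ s, f s x' = c ^ (w s p) * f s x) {ν : τ →₀ ℕ} {g : Z → ℂ} (hg : g ∈ gp w f ν) :
    g x' = c ^ (ν p) * g x := by
  let N : Submodule ℂ (Z → ℂ) :=
    LinearMap.eqLocus (LinearMap.proj x') (c ^ (ν p) • LinearMap.proj x)
  have hmon : ∀ α : σ →₀ ℕ, mon f α x' = c ^ (Finsupp.weight w α p) * mon f α x := by
    intro α
    induction α using Finsupp.induction_linear with
    | zero => simp [mon_zero]
    | add a b ha hb =>
      rw [mon_add, map_add, Pi.mul_apply, Pi.mul_apply, ha, hb, Finsupp.add_apply, pow_add]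
      ring
    | single s k =>
      rw [mon_single, Finsupp.weight_single, Pi.pow_apply, Pi.pow_apply, h, mul_pow, ← pow_mul,
        Finsupp.smul_apply, smul_eq_mul, mul_comm k]
  have : gp w f ν ≤ N := gp_le_iff.mpr fun α hα => by
    simp only [N, LinearMap.mem_eqLocus, LinearMap.coe_proj, Function.eval, LinearMap.smul_apply,
      smul_eq_mul]
    rw [hmon, hα]
  exact this hg

/-- Restriction of functions along a map. -/
def pull {Y : Type*} (e : Y → Z) : (Z → ℂ) →ₐ[ℂ] (Y → ℂ) where
  toFun g := fun y => g (e y)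
  map_one' := rfl
  map_mul' _ _ := rfl
  map_zero' := rfl
  map_add' _ _ := rfl
  commutes' _ := rfl

omit [DecidableEq τ] in
theorem pull_injective {Y : Type*} {e : Y → Z} (he : Function.Surjective e) :
    Function.Injective (pull e) := by
  intro g g' h
  funext x
  obtain ⟨y, rfl⟩ := he x
  exact congrFun h y

omit [DecidableEq τ] in
theorem lim_slice [Finite σ] (w : σ → τ →₀ ℕ) (f : σ → Z → ℂ) (p : τ) (s0 : σ)
    (hw0 : w s0 = Finsupp.single p 2) (hw : ∀ s, s ≠ s0 → (w s).erase p ≠ 0)
    (hT : ∀ c : ℂ, c ≠ 0 → ∀ x, ∃ x', ∀ s, f s x' = c ^ (w s p) * f s x) :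
    Lim p (hs w f * (1 + MvPowerSeries.monomial (Finsupp.single p 1) (1 : ℤ)))
      (hs (fun s => (w s).erase p) (fun s (y : {x // f s0 x = 1}) => f s y.1)) := by
  classical
  intro μ
  set w' : σ → τ →₀ ℕ := fun s => (w s).erase p with hw'
  set f' : σ → {x // f s0 x = 1} → ℂ := fun s y => f s y.1 with hf'
  by_cases hμ : μ p = 0
  swap
  · refine Eventually.of_forall fun k => ?_
    rw [if_neg hμ, coeff_hs]
    have : gp w' f' μ = ⊥ := by
      rw [eq_bot_iff]
      refine gp_le_iff.mpr fun α hα => absurd ?_ hμ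
      rw [← hα, hw', weight_erase]
      simp
    rw [this]
    simp
  simp only [if_pos hμ]
  have hwne : ∀ s, w s ≠ 0 := by
    intro s
    by_cases hs : s = s0
    · rw [hs, hw0]; simp
    · intro h0
      exact hw s hs (by rw [h0]; simp)
  have hμe : ∀ k, (μ + Finsupp.single p k).erase p = μ := fun k => by
    rw [Finsupp.erase_add, Finsupp.erase_single, add_zero,
      Finsupp.erase_of_notMem_support (by simpa using hμ)]
  -- the bound on the p-weight of monomials not involving s0
  obtain ⟨B, hB⟩ : ∃ B : ℕ, ∀ α : σ →₀ ℕ, α s0 = 0 → Finsupp.weight w' α = μ →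
      Finsupp.weight w α p ≤ B := by
    let w'' : σ → τ →₀ ℕ := fun s => if s = s0 then Finsupp.single p 1 else w' s
    have hfin := finite_weight_eq (w := w'') (fun s => by
      by_cases hs : s = s0
      · simp [w'', hs]
      · simpa [w'', hs] using hw s hs) μ
    obtain ⟨B, hB⟩ := (hfin.image fun α => Finsupp.weight w α p).bddAbove
    refine ⟨B, fun α h0 hα => hB ⟨α, ?_, rfl⟩⟩
    rw [Set.mem_ofPred_eq, ← hα, Finsupp.weight_apply, Finsupp.weight_apply]
    refine Finsupp.sum_congr fun s hs => ?_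
    have : s ≠ s0 := by rintro rfl; exact (Finsupp.mem_support_iff.mp hs) h0
    simp [w'', this]
  let V : ℕ → Submodule ℂ (Z → ℂ) := fun k => gp w f (μ + Finsupp.single p k)
  have hfd : ∀ k, FiniteDimensional ℂ (V k) := fun k => finiteDimensional_gp hwne f _
  let m : (Z → ℂ) →ₗ[ℂ] (Z → ℂ) := LinearMap.mulLeft ℂ (f s0)
  have hsurj : ∀ k ≥ B, V (k + 2) ≤ (V k).map m := by
    intro k hk g hg
    obtain ⟨g0, hg0, h⟩ := gp_split w f s0 _ ⊥ (by
      intro α hα h0
      have := hB α h0 (by rw [hw', weight_erase, hα, hμe])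
      rw [hα] at this
      simp [hμ] at this
      omega) g hg
    rw [Submodule.mem_bot] at hg0
    subst hg0
    rcases h with rfl | ⟨ν, g', h1, h2, rfl⟩
    · exact Submodule.zero_mem _
    · have : ν = μ + Finsupp.single p k := by
        rw [hw0, Finsupp.single_add, ← add_assoc] at h1
        exact (add_right_cancel h1).symm
      subst this
      exact ⟨g', h2, by simp [m]⟩
  let d : ℕ → ℕ := fun k => Module.finrank ℂ (V k)
  have hd : ∀ k ≥ B, d (k + 2) ≤ Module.finrank ℂ ((V k).map m) := fun k hk =>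
    Submodule.finrank_mono (hsurj k hk)
  have hd' : ∀ k, Module.finrank ℂ ((V k).map m) ≤ d k := fun k => Submodule.finrank_map_le _ _
  obtain ⟨k0, hk0⟩ := eventually_const_of_step (fun k => d k + d (k + 1)) B (fun k hk => by
    have := hd k hk
    have := hd' k
    show d (k + 1) + d (k + 2) ≤ d k + d (k + 1)
    omega)
  have hinj : ∀ k, k ≥ B → k ≥ k0 → ∀ g ∈ V k, f s0 * g = 0 → g = 0 := by
    intro k hk hk' g hg h0
    have h1 := hk0 k hk'
    have h2 := hk0 (k + 1) (by omega)
    have h3 := hd k hk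
    have h4 := finrank_eq_map_add_ker m (V k)
    have h6 : Module.finrank ℂ (V k ⊓ LinearMap.ker m : Submodule ℂ (Z → ℂ)) = 0 := by
      change d k + d (k + 1) = d k0 + d (k0 + 1) at h1
      change d (k + 1) + d (k + 2) = d k0 + d (k0 + 1) at h2
      change d k = _ at h4
      omega
    have h7 : (V k ⊓ LinearMap.ker m : Submodule ℂ (Z → ℂ)) = ⊥ := by
      have : FiniteDimensional ℂ (V k ⊓ LinearMap.ker m : Submodule ℂ (Z → ℂ)) :=
        Submodule.finiteDimensional_of_le inf_le_left
      exact Submodule.finrank_eq_zero.mp h6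
    have : g ∈ (V k ⊓ LinearMap.ker m : Submodule ℂ (Z → ℂ)) := ⟨hg, h0⟩
    rwa [h7, Submodule.mem_bot] at this
  let r : (Z → ℂ) →ₐ[ℂ] ({x // f s0 x = 1} → ℂ) := pull Subtype.val
  have hVp : ∀ k, (μ + Finsupp.single p k : τ →₀ ℕ) p = k := fun k => by simp [hμ]
  have hw0p : w s0 p = 2 := by rw [hw0]; simp
  have hrinj : ∀ k, k ≥ B → k ≥ k0 → ∀ g ∈ V k, r.toLinearMap g = 0 → g = 0 := by
    intro k hk hk' g hg h0
    apply hinj k hk hk' g hg
    funext x
    by_cases hx : f s0 x = 0
    · simp [hx]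
    · obtain ⟨c, hc⟩ := IsAlgClosed.exists_pow_nat_eq (f s0 x)⁻¹ (n := 2) (by norm_num)
      have hc0 : c ≠ 0 := by
        rintro rfl
        simp only [ne_eq, OfNat.ofNat_ne_zero, not_false_eq_true, zero_pow] at hc
        exact hx (inv_eq_zero.mp hc.symm)
      obtain ⟨x', hx'⟩ := hT c hc0 x
      have h1 : f s0 x' = 1 := by rw [hx', hw0p, hc, inv_mul_cancel₀ hx]
      have h2 : g x' = 0 := congrFun h0 ⟨x', h1⟩
      rw [gp_scale p hx' hg] at h2
      have h3 : g x = 0 := (mul_eq_zero.mp h2).resolve_left (pow_ne_zero _ hc0)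
      simp [h3]
  have hdisj : ∀ k, (V k).map r.toLinearMap ⊓ (V (k + 1)).map r.toLinearMap = ⊥ := by
    intro k
    rw [eq_bot_iff]
    rintro _ ⟨⟨g1, hg1, rfl⟩, g2, hg2, h12⟩
    rw [Submodule.mem_bot]
    funext y
    obtain ⟨x', hx'⟩ := hT (-1) (by norm_num) y.1
    have h1 : f s0 x' = 1 := by rw [hx', hw0p, y.2]; norm_num
    have e1 : g2 x' = g1 x' := congrFun h12 ⟨x', h1⟩
    have e2 : g2 y.1 = g1 y.1 := congrFun h12 y
    rw [gp_scale p hx' hg1, gp_scale p hx' hg2, hVp, hVp, e2, pow_succ] at e1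
    have e3 : (-1 : ℂ) ^ k * g1 y.1 = 0 := by linear_combination (-1 / 2 : ℂ) * e1
    exact (mul_eq_zero.mp e3).resolve_left (pow_ne_zero _ (by norm_num))
  have hsup : ∀ k ≥ B, (V k).map r.toLinearMap ⊔ (V (k + 1)).map r.toLinearMap = gp w' f' μ := by
    intro k hk
    have hle : ∀ k, (V k).map r.toLinearMap ≤ gp w' f' μ := by
      intro k
      rw [Submodule.map_le_iff_le_comap]
      refine gp_le_iff.mpr fun α hα => ?_
      rw [Submodule.mem_comap, AlgHom.toLinearMap_apply, map_mon]
      exact mon_mem_gp w' f' (by rw [hw', weight_erase, hα, hμe])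
    refine le_antisymm (sup_le (hle k) (hle (k + 1))) (gp_le_iff.mpr fun α hα => ?_)
    have hf0 : f' s0 = 1 := funext fun y => y.2
    have hw'0 : w' s0 = 0 := by simp [hw', hw0]
    have e1 : ∀ j, mon f' α = mon f' (α.erase s0 + Finsupp.single s0 j) := by
      intro j
      conv_lhs => rw [← Finsupp.erase_add_single s0 α]
      rw [mon_add, mon_add, mon_single, mon_single, hf0, one_pow, one_pow]
    have e2 : Finsupp.weight w' (α.erase s0) = μ := by
      rw [← hα]
      conv_rhs => rw [← Finsupp.erase_add_single s0 α]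
      rw [map_add, Finsupp.weight_single, hw'0, smul_zero, add_zero]
    have e3 := hB (α.erase s0) (by simp) e2
    have e4 : ∀ j, Finsupp.weight w (α.erase s0 + Finsupp.single s0 j) =
        μ + Finsupp.single p (Finsupp.weight w (α.erase s0) p + j * 2) := by
      intro j
      rw [map_add, Finsupp.weight_single, hw0, Finsupp.single_add, ← add_assoc, ← e2, hw',
        weight_erase, Finsupp.erase_add_single, Finsupp.smul_single, smul_eq_mul]
    have e5 : ∀ j k, Finsupp.weight w (α.erase s0) p + j * 2 = k →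
        mon f' α ∈ (V k).map r.toLinearMap := by
      intro j k hjk
      refine ⟨mon f (α.erase s0 + Finsupp.single s0 j), mon_mem_gp w f (by rw [e4, hjk]), ?_⟩
      rw [AlgHom.toLinearMap_apply, map_mon, e1 j]
      rfl
    rcases Nat.even_or_odd' (k - Finsupp.weight w (α.erase s0) p) with ⟨j, hj | hj⟩
    · exact Submodule.mem_sup_left (e5 j k (by omega))
    · exact Submodule.mem_sup_right (e5 (j + 1) (k + 1) (by omega))
  filter_upwards [eventually_ge_atTop (B + k0 + 1)] with k hk
  obtain ⟨k, rfl⟩ : ∃ j, k = j + 1 := ⟨k - 1, by omega⟩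
  rw [mul_add, mul_one, map_add, MvPowerSeries.coeff_mul_monomial, if_pos (by
    rw [Finsupp.single_le_iff, hVp]; omega), mul_one]
  have e : μ + Finsupp.single p (k + 1) - Finsupp.single p 1 = μ + Finsupp.single p k := by
    rw [Finsupp.single_add, ← add_assoc, add_tsub_cancel_right]
  rw [e, coeff_hs, coeff_hs, coeff_hs, ← hsup k (by omega)]
  have h1 := Submodule.finrank_sup_add_finrank_inf_eq ((V k).map r.toLinearMap)
    ((V (k + 1)).map r.toLinearMap)
  rw [hdisj, finrank_bot, add_zero,
    finrank_map_of_injOn _ _ (hrinj k (by omega) (by omega)),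
    finrank_map_of_injOn _ _ (hrinj (k + 1) (by omega) (by omega))] at h1
  rw [h1]
  push_cast
  exact add_comm _ _

end Slice

end Pool.Agent.MP_ef387b_co
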