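import Pool.Agent.MP_ef387b_co.Coord

/-!
Inserting a fixed point: the `K`-polynomial specialises and the codimension does not increase.
-/

namespace Pool.Agent.MP_ef387b_co

open MvPolynomial

variable {N N' : ℕ}

open Classical in
/-- A partial inverse of `e`. -/
noncomputable def pinv (e : Fin N → Fin N') (b : Fin N') : Option (Fin N) :=
  if h : ∃ a, e a = b then some h.choose else none

theorem pinv_apply {e : Fin N → Fin N'} (he : Function.Injective e) (a : Fin N) :
    pinv e (e a) = some a := by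
  have h : ∃ a', e a' = e a := ⟨a, rfl⟩
  rw [pinv, dif_pos h, he h.choose_spec]

theorem pinv_of_ne {e : Fin N → Fin N'} {p : Fin N'} (h : ∀ a, e a ≠ p) : pinv e p = none := by
  rw [pinv, dif_neg]
  rintro ⟨a, ha⟩
  exact h a ha

/-- The bordered matrix with Schur complement `A` and border `y`. -/
noncomputable def extG {B : Type*} [CommRing B] (e : Fin N → Fin N') (A : Fin N → Fin N → B)
    (y : Fin N → B) (a b : Fin N') : B :=
  match pinv e a, pinv e b with
  | none, none => 1
  | none, some j => y j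
  | some i, none => y i
  | some i, some j => A i j + y i * y j

section

variable {z : Equiv.Perm (Fin N)} {z' : Equiv.Perm (Fin N')} {p : Fin N'} {e : Fin N → Fin N'}

theorem Ins.ext_pp (h : Ins z z' p e) {B : Type*} [CommRing B] (A : Fin N → Fin N → B)
    (y : Fin N → B) : extG e A y p p = 1 := by
  simp [extG, pinv_of_ne h.ne]

theorem Ins.ext_pe (h : Ins z z' p e) {B : Type*} [CommRing B] (A : Fin N → Fin N → B)
    (y : Fin N → B) (j : Fin N) : extG e A y p (e j) = y j := by
  simp [extG, pinv_of_ne h.ne, pinv_apply h.mono.injective]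

theorem Ins.ext_ep (h : Ins z z' p e) {B : Type*} [CommRing B] (A : Fin N → Fin N → B)
    (y : Fin N → B) (j : Fin N) : extG e A y (e j) p = y j := by
  simp [extG, pinv_of_ne h.ne, pinv_apply h.mono.injective]

theorem Ins.ext_ee (h : Ins z z' p e) {B : Type*} [CommRing B] (A : Fin N → Fin N → B)
    (y : Fin N → B) (i j : Fin N) : extG e A y (e i) (e j) = A i j + y i * y j := by
  simp [extG, pinv_apply h.mono.injective]

theorem Ins.ext_mem0 (h : Ins z z' p e) {A : Matrix (Fin N) (Fin N) ℂ} (hA : A ∈ MX z) :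
    Matrix.of (extG e A 0) ∈ MX z' := by
  have hs : (Matrix.of (extG e A 0)).IsSymm := by
    ext a b
    rcases h.cover a with rfl | ⟨a, rfl⟩ <;> rcases h.cover b with rfl | ⟨b, rfl⟩
    · rfl
    · simp [h.ext_pe, h.ext_ep]
    · simp [h.ext_pe, h.ext_ep]
    · simp [h.ext_ee, hA.1.apply a b]
  rw [h.mem_iff hs (h.ext_pp _ _) (fun a => h.ext_pe _ _ a)]
  convert hA
  ext a b
  simp [h.ext_ee]

theorem Ins.ext_mem (h : Ins z z' p e) {A : Matrix (Fin N) (Fin N) ℂ} (hA : A ∈ MX z)
    (y : Fin N → ℂ) : Matrix.of (extG e A y) ∈ MX z' := by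
  have := cong_mem_MX' (h.ext_mem0 hA) p h.fix (fun b => (pinv e b).elim 0 y)
  convert this
  ext a b
  rcases h.cover a with rfl | ⟨a, rfl⟩ <;> rcases h.cover b with rfl | ⟨b, rfl⟩ <;>
    simp [cong, h.ext_pp, h.ext_pe, h.ext_ep, h.ext_ee, pinv_of_ne h.ne,
      pinv_apply h.mono.injective]

theorem Ins.prod_univ (h : Ins z z' p e) {M : Type*} [CommMonoid M] (g : Fin N' → M) :
    ∏ a, g a = g p * ∏ a, g (e a) := by
  have : (Finset.univ : Finset (Fin N')) =
      insert p (Finset.univ.map ⟨e, h.mono.injective⟩) := by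
    ext b
    simpa using h.cover b
  rw [this, Finset.prod_insert (by simpa using h.ne), Finset.prod_map]
  rfl

theorem Ins.prod_erase (h : Ins z z' p e) {M : Type*} [CommMonoid M] (g : Fin N' → M) :
    ∏ a ∈ Finset.univ.erase p, g a = ∏ a, g (e a) := by
  have : (Finset.univ : Finset (Fin N')).erase p = Finset.univ.map ⟨e, h.mono.injective⟩ := by
    ext b
    simp only [Finset.mem_erase, Finset.mem_univ, and_true, Finset.mem_map, true_and]
    constructor
    · exact fun hb => (h.cover b).resolve_left hb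
    · rintro ⟨a, rfl⟩
      exact h.ne a
  rw [this, Finset.prod_map]
  rfl

theorem prod_Ici_eq {M : Type*} [CommMonoid M] (F : Fin N → M) (a : Fin N) :
    ∏ b ∈ Finset.Ici a, F b = ∏ b, if a ≤ b then F b else 1 := by
  rw [← Finset.prod_filter]
  congr 1
  ext b
  simp

theorem Ins.prod_tri (h : Ins z z' p e) {M : Type*} [CommMonoid M] (F : Fin N' → Fin N' → M)
    (hF : ∀ a b, F a b = F b a) :
    ∏ a, ∏ b ∈ Finset.Ici a, F a b =
      F p p * ((∏ j, F p (e j)) * ∏ a, ∏ b ∈ Finset.Ici a, F (e a) (e b)) := by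
  simp only [prod_Ici_eq]
  rw [h.prod_univ]
  simp only [h.prod_univ (fun b => if _ ≤ b then F _ b else 1), le_refl, if_true,
    h.mono.le_iff_le, Finset.prod_mul_distrib]
  rw [mul_assoc, ← mul_assoc (∏ _, _), ← Finset.prod_mul_distrib]
  congr 3
  funext j
  rcases lt_or_gt_of_ne (h.ne j) with hj | hj
  · simp [hj.le, hj.not_ge, hF (e j) p]
  · simp [hj.le, hj.not_ge]

theorem prod_one_sub_ne_zero {τ ι : Type*} (S : Finset ι) (v : ι → τ →₀ ℕ) (hv : ∀ i ∈ S, v i ≠ 0) :
    ∏ i ∈ S, (1 - MvPowerSeries.monomial (v i) (1 : ℤ)) ≠ 0 := by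
  classical
  rw [Finset.prod_ne_zero_iff]
  intro i hi h0
  have := congrArg (MvPowerSeries.coeff 0) h0
  rw [map_sub, MvPowerSeries.coeff_monomial, if_neg (hv i hi).symm] at this
  simp at this

theorem Ins.sp_Kz (h : Ins z z' p e) : sp p (Kz z') = rename e (Kz z) := by
  let u := u0 N'
  have hup : u p = Finsupp.single p 1 := rfl
  have hue : ∀ j, (u (e j)).erase p = u (e j) := fun j => Finsupp.erase_single_ne (h.ne j).symm
  let D : MvPolynomial (Fin N') ℤ := (∏ j, (1 - monomial (u p + u (e j)) 1)) * DP (fun a => u (e a))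
  have hD : DP u = (1 - monomial (Finsupp.single p 2) 1) * D := by
    rw [DP, h.prod_tri (fun a b => (1 - monomial (u a + u b) 1 : MvPolynomial (Fin N') ℤ))
      (fun a b => by rw [add_comm]), hup, ← Finsupp.single_add]
    rfl
  have hspD : sp p D = (∏ j, (1 - monomial (u (e j)) 1)) * DP (fun a => u (e a)) := by
    simp only [D, DP, map_mul, map_prod, map_sub, map_one, sp_monomial, Finsupp.erase_add, hue, hup,
      Finsupp.erase_single, zero_add]
  have hune : ∀ j, u j ≠ 0 := fun j => by simp [u, u0]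
  have hpiv := pivot u (MX z') p p (Finset.univ.erase p) hup
    (fun i hi => Finsupp.single_eq_of_ne' hi) (by simp) (fun j _ => hune j)
    (fun c _ A hA => scale_mem_MX hA p c) (fun y _ A hA => cong_mem_MX' hA p h.fix y) (by
      intro a b hab h0
      exfalso
      rw [add_eq_zero] at h0
      by_cases ha : a = p
      · by_cases hb : b = p
        · exact hab (by rw [ha, hb])
        · rw [Function.update_of_ne hb] at h0
          exact hune b h0.2
      · rw [Function.update_of_ne ha] at h0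
        exact hune a h0.1) (K := Kz z') (D := D) (by
      rw [isKu_Kz z', hD, coe_mul, coe_one_sub_monomial, mul_assoc])
  have hHM : HM (Function.update u p 0)
      {A | A ∈ MX z' ∧ A p p = 1 ∧ ∀ j ∈ Finset.univ.erase p, A p j = 0} =
      HM (fun a => u (e a)) (MX z) := by
    set S' : Set (Matrix (Fin N') (Fin N') ℂ) :=
      {A | A ∈ MX z' ∧ A p p = 1 ∧ ∀ j ∈ Finset.univ.erase p, A p j = 0} with hS'
    have hrow : ∀ A : S', ∀ a, A.1 p (e a) = 0 := fun A a => A.2.2.2 _ (by simpa using h.ne a)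
    let φ : S' → MX z := fun A =>
      ⟨A.1.submatrix e e, (h.mem_iff A.2.1.1 A.2.2.1 (hrow A)).mp A.2.1⟩
    have hφ : Function.Surjective φ := by
      rintro ⟨A, hA⟩
      refine ⟨⟨Matrix.of (extG e A 0), h.ext_mem0 hA, h.ext_pp _ _, ?_⟩, ?_⟩
      · intro j hj
        obtain ⟨j, rfl⟩ := (h.cover j).resolve_left (Finset.ne_of_mem_erase hj)
        exact h.ext_pe _ _ j
      · apply Subtype.ext
        ext a b
        simp [φ, h.ext_ee]
    rw [HM, HM, ← hs_map_of_injective (pull φ) (pull_injective hφ)]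
    apply hs_eq_of_gen
    · rintro ⟨a, b⟩
      rcases h.cover a with rfl | ⟨a, rfl⟩ <;> rcases h.cover b with rfl | ⟨b, rfl⟩
      · exact dead_mem _ _ (Or.inr ⟨by simp, funext fun A => A.2.2.1⟩)
      · exact dead_mem _ _ (Or.inl (funext fun A => hrow A b))
      · exact dead_mem _ _ (Or.inl (funext fun A => (A.2.1.1.apply _ _).trans (hrow A a)))
      · exact gen_mem_gp' _ _ (a, b) rfl (by simp [Function.update_of_ne (h.ne _)])
    · rintro ⟨a, b⟩
      exact gen_mem_gp' _ _ (e a, e b) rfl (by simp [Function.update_of_ne (h.ne _)])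
  rw [hHM, hspD, coe_mul, coe_prod', h.prod_erase] at hpiv
  simp only [coe_one_sub_monomial] at hpiv
  have h1 : IsKu (fun a => u (e a)) (MX z) (sp p (Kz z')) := by
    apply mul_right_cancel₀ (prod_one_sub_ne_zero Finset.univ (fun j => u (e j)) fun j _ => hune _)
    rw [hpiv]
    ring
  have h2 := (isKu_Kz z).rename ⟨e, h.mono.injective⟩
  simp only [u0, Finsupp.mapDomain_single] at h2
  exact h1.unique h2

theorem mem_of_mul_X_sub_one {σ τ : Type*} {w : σ → τ →₀ ℕ} {I : Ideal (MvPolynomial σ ℂ)}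
    (hI : Homog w I) (s : σ) (hs : w s ≠ 0) {g : MvPolynomial σ ℂ} (hg : g * (X s - 1) ∈ I) :
    g ∈ I := by
  have key : ∀ ν, weightedHomogeneousComponent w ν g ∈ I := by
    intro ν
    induction ν using WellFoundedLT.induction with
    | ind ν ih =>
    have h1 := hI _ hg ν
    rw [mul_sub, mul_one, mul_comm, map_sub] at h1
    have h2 : weightedHomogeneousComponent w ν (X s * g) ∈ I := by
      by_cases hv : w s ≤ ν
      · obtain ⟨μ, rfl⟩ := exists_add_of_le hv
        rw [add_comm (w s) μ, comp_X_mul]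
        exact I.mul_mem_left _ (ih μ (lt_add_of_pos_left μ (pos_iff_ne_zero.mpr hs)))
      · rw [comp_X_mul_eq_zero w s hv]
        exact I.zero_mem
    simpa using I.sub_mem h2 h1
  rw [← sum_weightedHomogeneousComponent w g,
    finsum_eq_sum _ (weightedHomogeneousComponent_finsupp g)]
  exact I.sum_mem fun ν _ => key ν

/-- The coordinate `A a b` for an arbitrary pair of indices. -/
noncomputable def xs (a b : Fin N) : MvPolynomial (Pos N) ℂ :=
  if h : a ≤ b then X ⟨(a, b), h⟩ else X ⟨(b, a), (not_le.mp h).le⟩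

theorem algHom_xs {B : Type*} [CommRing B] [Algebra ℂ B] (F : Fin N → Fin N → B)
    (hF : ∀ a b, F a b = F b a) (a b : Fin N) :
    aeval (fun s : Pos N => F s.1.1 s.1.2) (xs a b) = F a b := by
  unfold xs
  split_ifs
  · simp
  · simp [hF a b]

theorem xs_comm (a b : Fin N) : xs a b = xs b a := by
  unfold xs
  rcases lt_trichotomy a b with h | rfl | h
  · rw [dif_pos h.le, dif_neg h.not_ge]
  · rfl
  · rw [dif_neg h.not_ge, dif_pos h.le]

theorem xs_eq (s : Pos N) : xs s.1.1 s.1.2 = X s := by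
  rw [xs, dif_pos s.2]

theorem Ins.card_eq (h : Ins z z' p e) : N' = N + 1 := by
  have := h.prod_univ (fun _ => Multiplicative.ofAdd (1 : ℕ))
  simp only [Finset.prod_const, Finset.card_univ, Fintype.card_fin] at this
  have h2 := congrArg Multiplicative.toAdd this
  simp at h2
  omega

theorem card_Pos (N : ℕ) : Fintype.card (Pos N) = (N + 1).choose 2 := by
  rw [← Fintype.card_congr Sym2.sortEquiv, Sym2.card, Fintype.card_fin]

theorem Ins.dim_aux (h : Ins z z' p e) {Q : Type} [CommRing Q] [Algebra ℂ Q]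
    (π : MvPolynomial (Pos N) ℂ →ₐ[ℂ] Q) (hπ : Function.Surjective π) (ev : Q →ₐ[ℂ] (MX z → ℂ))
    (hev : Function.Injective ev)
    (hc : ∀ f A, ev (π f) A = aeval (fun p : Pos N => A.1 p.1.1 p.1.2) f) :
    ringKrullDim (MvPolynomial (Fin N) Q) + 1 ≤
      ringKrullDim (MvPolynomial (Pos N') ℂ ⧸ idealMX z') := by
  let A : Fin N → Fin N → MvPolynomial (Fin N) Q := fun i j => C (π (xs i j))
  let Ψ : Fin N' → Fin N' → MvPolynomial (Fin N) Q := extG e A X
  have hΨ : ∀ a b, Ψ a b = Ψ b a := by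
    intro a b
    rcases h.cover a with rfl | ⟨a, rfl⟩ <;> rcases h.cover b with rfl | ⟨b, rfl⟩
    · rfl
    · simp [Ψ, h.ext_pe, h.ext_ep]
    · simp [Ψ, h.ext_pe, h.ext_ep]
    · simp [Ψ, h.ext_ee, A, xs_comm a b, mul_comm]
  let ψ : MvPolynomial (Pos N') ℂ →ₐ[ℂ] MvPolynomial (Fin N) Q := aeval fun s => Ψ s.1.1 s.1.2
  have hψ : ∀ a b, ψ (xs a b) = Ψ a b := algHom_xs Ψ hΨ
  let θ : MvPolynomial (Fin N) Q →ₐ[ℂ] (MX z × (Fin N → ℂ) → ℂ) :=
    (evp (MX z) (Fin N)).comp (mapAlgHom ev)
  have hθ : Function.Injective θ :=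
    (evp_injective _ _).comp (map_injective ev.toRingHom hev)
  have hθA : ∀ i j x, θ (A i j) x = x.1.1 i j := by
    intro i j x
    simp only [θ, A, AlgHom.comp_apply, mapAlgHom_apply, map_C, evp_C]
    exact (hc _ _).trans (algHom_xs (fun a b => x.1.1 a b) (fun a b => x.1.2.1.apply b a) i j)
  have hθX : ∀ j x, θ (X j) x = x.2 j := by
    intro j x
    simp [θ, evp_X]
  have hθΨ : ∀ a b x, θ (Ψ a b) x = extG e x.1.1 x.2 a b := by
    intro a b x
    rcases h.cover a with rfl | ⟨a, rfl⟩ <;> rcases h.cover b with rfl | ⟨b, rfl⟩ <;>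
      simp [Ψ, h.ext_pp, h.ext_pe, h.ext_ep, h.ext_ee, hθA, hθX]
  have hker : ∀ f ∈ idealMX z', ψ f = 0 := by
    intro f hf
    apply hθ
    funext x
    have h1 : θ.comp ψ = aeval fun (s : Pos N') x => extG e x.1.1 x.2 s.1.1 s.1.2 := by
      ext s x
      simp [ψ, hθΨ]
    have h2 := DFunLike.congr_fun h1 f
    rw [AlgHom.comp_apply] at h2
    rw [h2, aeval_pi_apply, map_zero]
    exact mem_idealMX.mp hf _ (h.ext_mem x.1.2 x.2)
  have hsurj : Function.Surjective ψ := by
    have hX : ∀ j, (X j : MvPolynomial (Fin N) Q) ∈ ψ.range :=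
      fun j => ⟨xs p (e j), (hψ _ _).trans (h.ext_pe _ _ j)⟩
    have hA : ∀ i j, A i j ∈ ψ.range := by
      intro i j
      have h1 : A i j = ψ (xs (e i) (e j)) - X i * X j := by
        rw [hψ]; simp [Ψ, h.ext_ee]
      rw [h1]
      exact sub_mem ⟨_, rfl⟩ (mul_mem (hX i) (hX j))
    have hC : ∀ f : MvPolynomial (Pos N) ℂ, (C (π f) : MvPolynomial (Fin N) Q) ∈ ψ.range := by
      intro f
      induction f using MvPolynomial.induction_on with
      | C a =>
        rw [algHom_C]
        exact ψ.range.algebraMap_mem a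
      | add P Q hP hQ => rw [map_add, map_add]; exact add_mem hP hQ
      | mul_X P s hP =>
        rw [map_mul, map_mul]
        exact mul_mem hP (xs_eq s ▸ hA s.1.1 s.1.2)
    intro g
    change g ∈ ψ.range
    induction g using MvPolynomial.induction_on with
    | C a =>
      obtain ⟨f, rfl⟩ := hπ a
      exact hC f
    | add P Q hP hQ => exact add_mem hP hQ
    | mul_X P s hP => exact mul_mem hP (hX s)
  let ψ' := Ideal.Quotient.lift (idealMX z') ψ.toRingHom hker
  have hsurj' : Function.Surjective ψ' := Ideal.Quotient.lift_surjective_of_surjective _ _ hsurj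
  have hnz : Ideal.Quotient.mk (idealMX z') (X ⟨(p, p), le_rfl⟩ - 1) ∈
      nonZeroDivisors (MvPolynomial (Pos N') ℂ ⧸ idealMX z') := by
    rw [mem_nonZeroDivisors_iff_right]
    intro g hg
    obtain ⟨f, rfl⟩ := Ideal.Quotient.mk_surjective g
    rw [← map_mul, Ideal.Quotient.eq_zero_iff_mem] at hg
    exact Ideal.Quotient.eq_zero_iff_mem.mpr
      (mem_of_mul_X_sub_one (homog_idealMX z') _ (wt_ne_zero _) hg)
  exact ringKrullDim_succ_le_of_surjective ψ' hsurj' hnz (by
    simp [ψ', ψ, Ψ, h.ext_pp])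

theorem Ins.dim_le (h : Ins z z' p e) : dimX z + N + 1 ≤ dimX z' := by
  have h1 := h.dim_aux (Ideal.Quotient.mkₐ ℂ (idealMX z)) Ideal.Quotient.mk_surjective (evI z)
    (evI_injective z) (evI_mk z)
  have h2 := ringKrullDim_add_natCard_le_ringKrullDim_mvPolynomial
    (R := MvPolynomial (Pos N) ℂ ⧸ idealMX z) (Fin N)
  rw [krull_eq_dimX, Nat.card_eq_fintype_card, Fintype.card_fin] at h2
  rw [krull_eq_dimX] at h1
  have h3 : (dimX z : WithBot ℕ∞) + N + 1 ≤ dimX z' := le_trans (by gcongr) h1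
  exact_mod_cast h3

theorem Ins.cod_le (h : Ins z z' p e) : cod z' ≤ cod z := by
  have h1 := h.dim_le
  have h2 := h.card_eq
  subst h2
  rw [cod, cod, card_Pos, card_Pos, Nat.choose_succ_succ' (N + 1) 1, Nat.choose_one_right]
  change N + 1 + (N + 1).choose 2 - _ ≤ _
  omega

end

end Pool.Agent.MP_ef387b_co
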